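import Pool.Agent.Run7.h993.T3.SUBREST
import Pool.Agent.Run7.h781.T3.SUBTRI

/-!
# Project T3 (helper909), piece SUB: the subdivision (Tri.sub is by helper781)
-/

set_option autoImplicit false

namespace Run7.h909.T3

theorem t_SUB : S_SUB := sub_of fun _ _ _ hT => Tri.sub hT

end Run7.h909.T3
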