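import Pool.Agent.Run7.h909.T3.Stm

/-!
# Project T3 of helper909, for TREE: straight horizontal paths have bounded length
-/

set_option autoImplicit false

namespace Run7.h993.T3

open SimpleGraph Run7.h909.TD Run7.h909.T3

section

variable {V : Type} {T : SimpleGraph V} {F : Set (ℤ → V)}

theorem p3 {φ : ℤ → V} (h : Per φ 3) {i j : ℤ} (hij : i % 3 = j % 3) : φ i = φ j := by
  refine (h _ _).2 ?_
  push_cast
  omega

/-- cyclic permutation -/
theorem tg_rot (h : Tri T F) {x y z : V} (ht : Tg F x y z) : Tg F y z x := by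
  obtain ⟨φ, hφ, rfl, rfl, rfl⟩ := ht
  refine ⟨_, h.shift φ hφ 1, ?_, ?_, ?_⟩
  · show φ (0 + 1) = _
    norm_num
  · show φ (1 + 1) = _
    norm_num
  · show φ (2 + 1) = _
    exact p3 (h.per φ hφ) (by norm_num)

/-- transposition -/
theorem tg_sw (h : Tri T F) {x y z : V} (ht : Tg F x y z) : Tg F x z y := by
  obtain ⟨φ, hφ, rfl, rfl, rfl⟩ := ht
  refine ⟨_, h.refl φ hφ, ?_, ?_, ?_⟩
  · show φ (-0) = _
    norm_num
  · show φ (-1) = _
    exact p3 (h.per φ hφ) (by norm_num)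
  · show φ (-2) = _
    exact p3 (h.per φ hφ) (by norm_num)

theorem tg_a1 (h : Tri T F) {x y z : V} (ht : Tg F x y z) : T.Adj x y := by
  obtain ⟨φ, hφ, rfl, rfl, rfl⟩ := ht
  have := h.adj φ hφ 0
  rwa [zero_add] at this

theorem tg_a2 (h : Tri T F) {x y z : V} (ht : Tg F x y z) : T.Adj x z := tg_a1 h (tg_sw h ht)

theorem tg_a3 (h : Tri T F) {x y z : V} (ht : Tg F x y z) : T.Adj y z := tg_a1 h (tg_rot h ht)

/-- **straight horizontal paths**: `z i` is a lower vertex of a triangle with the edge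
`{a i, a (i + 1)}`; consecutive `z i` are different -/
theorem chain_le (h : Tri T F) {o : V} {ℓ : V → ℕ} (hl : Lv T F o ℓ) :
    ∀ (n m : ℕ) (a z : ℕ → V), (∀ i, i < m → ℓ (a i) = n ∧ ℓ (a (i + 1)) = n ∧
      Tg F (a i) (a (i + 1)) (z i) ∧ ℓ (z i) + 1 = n) → (∀ i, i + 1 < m → z i ≠ z (i + 1)) →
      m ≤ n := by
  intro n
  induction n with
  | zero =>
    intro m a z h1 _
    by_contra hcon
    have := (h1 0 (by omega)).2.2.2
    omega
  | succ n IH =>
    intro m a z h1 h2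
    by_cases hm : m ≤ 1
    · omega
    -- the triangles `a (i + 1), z i, z (i + 1)`
    have t1 : ∀ i, i + 1 < m → Tg F (a (i + 1)) (z i) (z (i + 1)) := by
      intro i hi
      obtain ⟨b1, b2, b3, b4⟩ := h1 i (by omega)
      obtain ⟨c1, c2, c3, c4⟩ := h1 (i + 1) (by omega)
      exact hl.low _ _ _ (tg_a3 h b3) (tg_a2 h c3) (by omega) (by omega) (h2 i hi)
    have t2 : ∀ i, i + 1 < m → ∃ w, Tg F (z i) (z (i + 1)) w ∧ ℓ w + 1 = ℓ (z i) := by
      intro i hi
      obtain ⟨b1, b2, b3, b4⟩ := h1 i (by omega)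
      obtain ⟨c1, c2, c3, c4⟩ := h1 (i + 1) (by omega)
      exact hl.hor _ _ (tg_a3 h (t1 i hi)) (by omega)
    haveI : Nonempty V := ⟨o⟩
    choose! w hw using t2
    have hres := IH (m - 1) z w (by
      intro i hi
      obtain ⟨b1, b2, b3, b4⟩ := h1 i (by omega)
      obtain ⟨c1, c2, c3, c4⟩ := h1 (i + 1) (by omega)
      obtain ⟨d1, d2⟩ := hw i (by omega)
      exact ⟨by omega, by omega, d1, by omega⟩) (by
      intro i hi he
      -- the link of `z (i + 1)`
      obtain ⟨b1, b2, b3, b4⟩ := h1 (i + 1) (by omega)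
      have e1 := t1 i (by omega)
      have e2 := t1 (i + 1) (by omega)
      obtain ⟨d1, -⟩ := hw i (by omega)
      obtain ⟨d2, -⟩ := hw (i + 1) (by omega)
      rw [← he] at d2
      -- z i - a (i+1) - a (i+2) - z (i+2) - w i
      exact h.g5 (z (i + 1)) (z i) (a (i + 1)) (a (i + 1 + 1)) (z (i + 1 + 1)) (w i)
        (tg_sw h (tg_rot h (tg_rot h e1))) (tg_rot h (tg_rot h b3)) (tg_sw h (tg_rot h e2))
        d2 (tg_rot h d1))
    omega

end

end Run7.h993.T3
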