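import Pool.Agent.Run7.h993.T3.SubDefs

/-!
# Project T3 (helper909), piece SUBREST: the subdivision of a triangle complex is simply connected,
the action on it, and the property `Gd`
-/

set_option autoImplicit false

namespace Run7.h909.T3

open SimpleGraph Run7.h909.TD

section

variable {V : Type} {T : SimpleGraph V} {F : Set (ℤ → V)}

/-- a vertex as a vertex of the subdivision -/
def vv (T : SimpleGraph V) (x : V) : Sv T := ⟨Sum.inl x, trivial⟩

/-- an edge as a vertex of the subdivision -/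
def ee {x y : V} (h : T.Adj x y) : Sv T := ⟨Sum.inr s(x, y), h⟩

theorem ee_symm {x y : V} (h : T.Adj x y) (h' : T.Adj y x) : ee h = ee h' :=
  Subtype.ext (by show Sum.inr s(x, y) = Sum.inr s(y, x); rw [Sym2.eq_swap])

theorem ee_congr {x y x' y' : V} (h : T.Adj x y) (h' : T.Adj x' y') (hx : x = x') (hy : y = y') :
    ee h = ee h' := by
  subst hx
  subst hy
  rfl

theorem Sv.ind {P : Sv T → Prop} (h1 : ∀ x, P (vv T x)) (h2 : ∀ x y (h : T.Adj x y), P (ee h))
    (a : Sv T) : P a := by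
  obtain ⟨a, ha⟩ := a
  rcases a with x | p
  · exact h1 x
  · induction p using Sym2.ind with
    | _ x y => exact h2 x y ha

theorem Tri.a01 (hT : Tri T F) {φ : ℤ → V} (hφ : φ ∈ F) : T.Adj (φ 0) (φ 1) := by
  have := hT.adj φ hφ 0
  rwa [zero_add] at this

theorem Tri.a12 (hT : Tri T F) {φ : ℤ → V} (hφ : φ ∈ F) : T.Adj (φ 1) (φ 2) := hT.adj φ hφ 1

theorem Tri.e3 (hT : Tri T F) {φ : ℤ → V} (hφ : φ ∈ F) : φ 3 = φ 0 :=
  per3_eq (hT.per φ hφ) (by norm_num)

theorem Tri.em1 (hT : Tri T F) {φ : ℤ → V} (hφ : φ ∈ F) : φ (-1) = φ 2 :=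
  per3_eq (hT.per φ hφ) (by norm_num)

theorem Tri.a20 (hT : Tri T F) {φ : ℤ → V} (hφ : φ ∈ F) : T.Adj (φ 2) (φ 0) := by
  have := hT.adj φ hφ 2
  rwa [show (2 : ℤ) + 1 = 3 by norm_num, hT.e3 hφ] at this

theorem Tri.a0m (hT : Tri T F) {φ : ℤ → V} (hφ : φ ∈ F) : T.Adj (φ 0) (φ (-1)) := by
  rw [hT.em1 hφ]
  exact (hT.a20 hφ).symm

theorem Tri.tg_rot (hT : Tri T F) {x y z : V} (h : Tg F x y z) : Tg F y z x := by
  obtain ⟨φ, hφ, rfl, rfl, rfl⟩ := h
  refine ⟨_, hT.shift φ hφ 1, ?_, ?_, ?_⟩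
  · show φ (0 + 1) = _
    norm_num
  · show φ (1 + 1) = _
    norm_num
  · show φ (2 + 1) = _
    norm_num
    exact hT.e3 hφ

theorem Tri.tg_rev (hT : Tri T F) {x y z : V} (h : Tg F x y z) : Tg F z y x := by
  obtain ⟨φ, hφ, rfl, rfl, rfl⟩ := h
  refine ⟨_, hT.refl _ (hT.shift φ hφ 2), ?_, ?_, ?_⟩
  · show φ (-0 + 2) = _
    norm_num
  · show φ (-1 + 2) = _
    norm_num
  · show φ (-2 + 2) = _
    norm_num

theorem Tri.tg_adj (hT : Tri T F) {x y z : V} (h : Tg F x y z) : T.Adj x y := by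
  obtain ⟨φ, hφ, rfl, rfl, rfl⟩ := h
  exact hT.a01 hφ

variable (hT : Tri T F)

theorem adj_ve {x y : V} (h : T.Adj x y) : (SG T F hT).Adj (vv T x) (ee h) := by
  left
  show x ∈ s(x, y)
  simp

theorem adj_ee {x y z : V} (h : Tg F x y z) (h1 : T.Adj x y) (h2 : T.Adj y z) :
    (SG T F hT).Adj (ee h1) (ee h2) := by
  left
  obtain ⟨φ, hφ, rfl, rfl, rfl⟩ := h
  exact ⟨φ, hφ, rfl, rfl⟩

/-- adjacent vertices of the subdivision -/
theorem sg_cases {a b : Sv T} (hab : (SG T F hT).Adj a b) :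
    (∃ x y, ∃ h : T.Adj x y, (a = vv T x ∧ b = ee h) ∨ (b = vv T x ∧ a = ee h)) ∨
    (∃ x y z, ∃ _ : Tg F x y z, ∃ h1 : T.Adj x y, ∃ h2 : T.Adj y z, a = ee h1 ∧ b = ee h2) := by
  have key : ∀ a b : Sv T, Inc F a.1 b.1 →
      (∃ x y, ∃ h : T.Adj x y, a = vv T x ∧ b = ee h) ∨
      (∃ x y z, ∃ _ : Tg F x y z, ∃ h1 : T.Adj x y, ∃ h2 : T.Adj y z, a = ee h1 ∧ b = ee h2) := by
    intro a b hab
    obtain ⟨a, ha⟩ := a
    obtain ⟨b, hb⟩ := b
    rcases a with x | p
    · rcases b with y | p'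
      · exact hab.elim
      · left
        have hx : x ∈ p' := hab
        obtain ⟨y, rfl⟩ := hx
        exact ⟨x, y, hb, rfl, rfl⟩
    · rcases b with y | p'
      · exact hab.elim
      · right
        obtain ⟨φ, hφ, rfl, rfl⟩ := hab
        exact ⟨φ 0, φ 1, φ 2, ⟨φ, hφ, rfl, rfl, rfl⟩, hT.a01 hφ, hT.a12 hφ, rfl, rfl⟩
  rcases hab with h1 | h1
  · rcases key a b h1 with ⟨x, y, h2, h3, h4⟩ | h5
    · exact Or.inl ⟨x, y, h2, Or.inl ⟨h3, h4⟩⟩
    · exact Or.inr h5
  · rcases key b a h1 with ⟨x, y, h2, h3, h4⟩ | ⟨x, y, z, ht, h1, h2, e1, e2⟩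
    · exact Or.inl ⟨x, y, h2, Or.inr ⟨h3, h4⟩⟩
    · refine Or.inr ⟨z, y, x, hT.tg_rev ht, h2.symm, h1.symm, ?_, ?_⟩
      · rw [e2]
        exact ee_symm _ _
      · rw [e1]
        exact ee_symm _ _

theorem sc_conn (hc : T.Connected) : (SG T F hT).Connected := by
  obtain ⟨o⟩ := hc.nonempty
  have hne : Nonempty (Sv T) := ⟨vv T o⟩
  have h1 : ∀ x, (SG T F hT).Reachable (vv T x) (vv T o) := by
    intro x
    have hr := hc.preconnected x o
    rw [reachable_iff_reflTransGen] at hr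
    induction hr using Relation.ReflTransGen.head_induction_on with
    | refl => exact Reachable.refl _
    | @head a b hab _ ih =>
      refine ((adj_ve hT hab).reachable.trans ?_).trans ih
      rw [ee_symm hab hab.symm]
      exact (adj_ve hT hab.symm).symm.reachable
  have h2 : ∀ a, (SG T F hT).Reachable a (vv T o) := by
    refine Sv.ind h1 ?_
    intro x y hxy
    exact (adj_ve hT hxy).symm.reachable.trans (h1 x)
  exact ⟨fun a b => (h2 a).trans (h2 b).symm⟩

theorem wrap3 {V L : Type} [Group L] (c : V → V → L) (φ : ℤ → V) :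
    wrap c φ 3 = c (φ 0) (φ 1) * c (φ 1) (φ 2) * c (φ 2) (φ 3) := by
  rw [wrap_succ, wrap_succ, wrap_succ, wrap_zero, one_mul]
  norm_num

open Classical in
/-- the value of a cocycle from a vertex to an edge -/
noncomputable def al {L : Type} [Group L] (c : Sv T → Sv T → L) (x y : V) : L :=
  if h : T.Adj x y then c (vv T x) (ee h) else 1

theorem al_eq {L : Type} [Group L] {c : Sv T → Sv T → L} {x y : V} (h : T.Adj x y) :
    al c x y = c (vv T x) (ee h) := by
  rw [al, dif_pos h]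

section

variable {hT} {L : Type} [Group L] {c : Sv T → Sv T → L}

theorem al_inv (hc : Coc (SG T F hT) (SF T F) c) {x y : V} (h : T.Adj x y) :
    c (ee h) (vv T x) = (al c x y)⁻¹ := by
  rw [al_eq h]
  exact (inv_eq_of_mul_eq_one_right (hc.inv _ _ (adj_ve hT h))).symm

/-- a corner triangle -/
theorem cor_eq (hs : Tri (SG T F hT) (SF T F)) (hc : Coc (SG T F hT) (SF T F) c) {x y z : V}
    (h : Tg F y x z) (h1 : T.Adj y x) (h2 : T.Adj x z) :
    c (ee h1) (ee h2) = (al c x y)⁻¹ * al c x z := by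
  obtain ⟨φ, hφ, e0, e1, e2⟩ := hT.tg_rot h
  -- φ 0 = x, φ 1 = z, φ 2 = y
  have h01 := hT.a01 hφ
  have h0m := hT.a0m hφ
  let ψ : ℤ → Sv T := fun i => if i % 3 = 0 then vv T (φ 0) else if i % 3 = 1 then ee h01
    else ee h0m
  have hψ : ψ ∈ SF T F := by
    refine ⟨φ, hφ, 0, Or.inl fun i => ?_⟩
    show (if i % 3 = 0 then vv T (φ 0) else if i % 3 = 1 then ee h01 else ee h0m : Sv T).1 = _
    rw [add_zero, Cr]
    split_ifs
    · rfl
    · rfl
    · rfl
  have := hc.face ψ hψ 3 (hs.per ψ hψ)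
  rw [wrap3] at this
  have w0 : ψ 0 = vv T (φ 0) := rfl
  have w1 : ψ 1 = ee h01 := rfl
  have w2 : ψ 2 = ee h0m := rfl
  have w3 : ψ 3 = vv T (φ 0) := rfl
  rw [w0, w1, w2, w3, al_inv hc h0m, ← al_eq (c := c) h01] at this
  -- al x z * c (xz) (xy) * (al x y)⁻¹ = 1
  have hm := hT.em1 hφ
  have f1 : ee h01 = ee h2 := ee_congr _ _ e0 e1
  have f2 : ee h0m = ee h1.symm := ee_congr _ _ e0 (hm.trans e2)
  rw [f1, f2, hm, e0, e1, e2] at this
  have h3 : c (ee h2) (ee h1.symm) = (al c x z)⁻¹ * al c x y := by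
    have h4 : al c x z * c (ee h2) (ee h1.symm) = al c x y := mul_inv_eq_one.1 this
    rw [← h4]
    group
  have hadj : (SG T F hT).Adj (ee h1) (ee h2) := adj_ee hT h h1 h2
  have h5 := hc.inv _ _ hadj
  rw [ee_symm h1 h1.symm] at h5 ⊢
  rw [h3] at h5
  have h6 := (mul_eq_one_iff_eq_inv.1 h5)
  rw [h6]
  group

open Classical in
/-- the cocycle of the complex given by a cocycle of the subdivision -/
noncomputable def c0 (c : Sv T → Sv T → L) (x y : V) : L := al c x y * (al c y x)⁻¹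

theorem coc_c0 (hs : Tri (SG T F hT) (SF T F)) (hc : Coc (SG T F hT) (SF T F) c) :
    Coc T F (c0 c) := by
  constructor
  · intro x y _
    rw [c0, c0]
    group
  · intro φ hφ n hn
    have hn3 : n = 3 := hn.unique (hT.per φ hφ)
    subst hn3
    rw [wrap3, hT.e3 hφ]
    have h01 := hT.a01 hφ
    have h12 := hT.a12 hφ
    have h20 := hT.a20 hφ
    have t0 : Tg F (φ 0) (φ 1) (φ 2) := ⟨φ, hφ, rfl, rfl, rfl⟩
    have t1 := hT.tg_rot t0
    have t2 := hT.tg_rot t1
    have c1 := cor_eq hs hc t0 h01 h12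
    have c2 := cor_eq hs hc t1 h12 h20
    have c3 := cor_eq hs hc t2 h20 h01
    let ψ : ℤ → Sv T := fun i => if i % 3 = 0 then ee h01 else if i % 3 = 1 then ee h12
      else ee h20
    have hψ : ψ ∈ SF T F := by
      refine ⟨φ, hφ, 0, Or.inr fun i => ?_⟩
      show (if i % 3 = 0 then ee h01 else if i % 3 = 1 then ee h12 else ee h20 : Sv T).1 =
        Sum.inr s(φ (i + 0), φ (i + 0 + 1))
      have hp := hT.per φ hφ
      split_ifs with g1 g2
      · rw [per3_eq hp (i := i + 0) (j := 0) (by omega),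
          per3_eq hp (i := i + 0 + 1) (j := 1) (by omega)]
        rfl
      · rw [per3_eq hp (i := i + 0) (j := 1) (by omega),
          per3_eq hp (i := i + 0 + 1) (j := 2) (by omega)]
        rfl
      · rw [per3_eq hp (i := i + 0) (j := 2) (by omega),
          per3_eq hp (i := i + 0 + 1) (j := 0) (by omega)]
        rfl
    have := hc.face ψ hψ 3 (hs.per ψ hψ)
    rw [wrap3] at this
    have w0 : ψ 0 = ee h01 := rfl
    have w1 : ψ 1 = ee h12 := rfl
    have w2 : ψ 2 = ee h20 := rfl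
    have w3 : ψ 3 = ee h01 := rfl
    rw [w0, w1, w2, w3, c1, c2, c3] at this
    rw [c0, c0, c0]
    have h3 : al c (φ 0) (φ 1) * (((al c (φ 1) (φ 0))⁻¹ * al c (φ 1) (φ 2) *
        ((al c (φ 2) (φ 1))⁻¹ * al c (φ 2) (φ 0)) * ((al c (φ 0) (φ 2))⁻¹ * al c (φ 0) (φ 1)))) *
        (al c (φ 0) (φ 1))⁻¹ = 1 := by
      rw [this]
      group
    rw [← h3]
    group

/-- the extension of the potential -/
def Rl (c : Sv T → Sv T → L) (f : V → L) (a : Sv T) (l : L) : Prop :=
  (∃ x, a = vv T x ∧ l = f x) ∨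
  (∃ x y, ∃ hxy : T.Adj x y, a = ee hxy ∧ l = f x * al c x y)

theorem Rl_uniq {f : V → L} (hf : ∀ x y, T.Adj x y → c0 c x y = (f x)⁻¹ * f y) {a : Sv T}
    {l l' : L} (h1 : Rl c f a l) (h2 : Rl c f a l') : l = l' := by
  rcases h1 with ⟨x, rfl, rfl⟩ | ⟨x, y, hxy, rfl, rfl⟩
  · rcases h2 with ⟨x', e, rfl⟩ | ⟨x', y', hxy', e, rfl⟩
    · have := congrArg Subtype.val e
      rw [Sum.inl_injective this]
    · have := congrArg Subtype.val e
      cases this
  · rcases h2 with ⟨x', e, rfl⟩ | ⟨x', y', hxy', e, rfl⟩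
    · have := congrArg Subtype.val e
      cases this
    · have e' : s(x, y) = s(x', y') := Sum.inr_injective (congrArg Subtype.val e)
      rw [Sym2.eq_iff] at e'
      rcases e' with ⟨rfl, rfl⟩ | ⟨rfl, rfl⟩
      · rfl
      · have h3 := hf _ _ hxy
        rw [c0] at h3
        have h4 : f y = f x * (al c x y * (al c y x)⁻¹) := by
          rw [h3]
          group
        rw [h4]
        group

end

theorem SC.sub (hs : Tri (SG T F hT) (SF T F)) (h : SC T F) : SC (SG T F hT) (SF T F) := by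
  refine ⟨sc_conn hT h.1, ?_⟩
  intro L _ c hc
  obtain ⟨f, hf⟩ := h.2 _ _ (coc_c0 hs hc)
  have hex : ∀ a, ∃ l, Rl c f a l := by
    refine Sv.ind ?_ ?_
    · exact fun x => ⟨_, Or.inl ⟨x, rfl, rfl⟩⟩
    · exact fun x y hxy => ⟨_, Or.inr ⟨x, y, hxy, rfl, rfl⟩⟩
  choose g hg using hex
  have key : ∀ {a l}, Rl c f a l → g a = l := fun hl => Rl_uniq hf (hg _) hl
  refine ⟨g, ?_⟩
  have inv' : ∀ a b, (SG T F hT).Adj a b → c a b = (g a)⁻¹ * g b → c b a = (g b)⁻¹ * g a := by
    intro a b hab he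
    have := hc.inv a b hab
    rw [he] at this
    have := (inv_eq_of_mul_eq_one_right this).symm
    rw [this]
    group
  intro a b hab
  rcases sg_cases hT hab with ⟨x, y, hxy, ⟨rfl, rfl⟩ | ⟨rfl, rfl⟩⟩ |
    ⟨x, y, z, ht, h1, h2, rfl, rfl⟩
  · rw [key (Or.inl ⟨x, rfl, rfl⟩), key (Or.inr ⟨x, y, hxy, rfl, rfl⟩), al_eq hxy]
    group
  · refine inv' _ _ hab.symm ?_
    rw [key (Or.inl ⟨x, rfl, rfl⟩), key (Or.inr ⟨x, y, hxy, rfl, rfl⟩), al_eq hxy]
    group
  · rw [key (Or.inr ⟨y, x, h1.symm, ee_symm _ _, rfl⟩), key (Or.inr ⟨y, z, h2, rfl, rfl⟩),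
      cor_eq hs hc ht h1 h2]
    group

end

/-! ### the action -/

section

variable {H V : Type} [Group H] [MulAction H V] {T : SimpleGraph V} {F : Set (ℤ → V)}

/-- the action on closed paths -/
def pa (h : H) (φ : ℤ → V) : ℤ → V := fun i => h • φ i

/-- the action on cells -/
def ua (h : H) : U V → U V := Sum.map (fun x => h • x) (Sym2.map fun x => h • x)

theorem ua_v (h : H) (x : V) : ua h (Sum.inl x : U V) = Sum.inl (h • x) := rfl

theorem ua_e (h : H) (x y : V) : ua h (Sum.inr s(x, y) : U V) = Sum.inr s(h • x, h • y) := rfl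

theorem ua_Cr (h : H) (φ : ℤ → V) (i : ℤ) : ua h (Cr φ i) = Cr (pa h φ) i := by
  rcases mod3 i with a | a | a
  · rw [Cr0 _ a, Cr0 _ a]
    rfl
  · rw [Cr1 _ a, Cr1 _ a]
    rfl
  · rw [Cr2 _ a, Cr2 _ a]
    rfl

theorem ua_Md (h : H) (φ : ℤ → V) (i : ℤ) : ua h (Md φ i) = Md (pa h φ) i := rfl

theorem good_ua (hA : Ac H T F) (h : H) {a : U V} (ha : Good T a) : Good T (ua h a) := by
  rcases a with x | p
  · trivial
  · induction p using Sym2.ind with
    | _ x y => exact hA.adj h x y ha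

theorem ua_one (a : U V) : ua (1 : H) a = a := by
  rcases a with x | p
  · rw [ua_v, one_smul]
  · induction p using Sym2.ind with
    | _ x y => rw [ua_e, one_smul, one_smul]

theorem ua_mul (g h : H) (a : U V) : ua (g * h) a = ua g (ua h a) := by
  rcases a with x | p
  · rw [ua_v, ua_v, ua_v, mul_smul]
  · induction p using Sym2.ind with
    | _ x y => rw [ua_e, ua_e, ua_e, mul_smul, mul_smul]

/-- the action on the subdivision -/
@[reducible] def sAct (hA : Ac H T F) : MulAction H (Sv T) where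
  smul h a := ⟨ua h a.1, good_ua hA h a.2⟩
  one_smul a := Subtype.ext (ua_one a.1)
  mul_smul g h a := Subtype.ext (ua_mul g h a.1)

theorem inc_ua (hA : Ac H T F) (h : H) {a b : U V} (hab : Inc F a b) : Inc F (ua h a) (ua h b) := by
  rcases a with x | p
  · rcases b with y | p'
    · exact hab.elim
    · have hx : x ∈ p' := hab
      obtain ⟨y, rfl⟩ := hx
      show h • x ∈ s(h • x, h • y)
      simp
  · rcases b with y | p'
    · exact hab.elim
    · obtain ⟨φ, hφ, rfl, rfl⟩ := hab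
      exact ⟨pa h φ, hA.face h φ hφ, rfl, rfl⟩

theorem sAc (hT : Tri T F) (hA : Ac H T F) : letI := sAct hA; Ac H (SG T F hT) (SF T F) := by
  letI := sAct hA
  constructor
  · intro g a b hab
    exact hab.imp (inc_ua hA g) (inc_ua hA g)
  · rintro g ψ ⟨φ, hφ, k, hk | hk⟩
    · refine ⟨pa g φ, hA.face g φ hφ, k, Or.inl fun i => ?_⟩
      show ua g (ψ i).1 = _
      rw [hk, ua_Cr]
    · refine ⟨pa g φ, hA.face g φ hφ, k, Or.inr fun i => ?_⟩
      show ua g (ψ i).1 = _
      rw [hk, ua_Md]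

/-- the types -/
def ty2 (τ : V → ZMod 3) : U V → ZMod 3
  | Sum.inl x => 2 * τ x
  | Sum.inr p => Sym2.lift ⟨fun x y => τ x + τ y, fun x y => add_comm _ _⟩ p

theorem ty2_e (τ : V → ZMod 3) (x y : V) : ty2 τ (Sum.inr s(x, y)) = τ x + τ y := rfl

theorem ty2_ua (τ : V → ZMod 3) (hty : ∀ (k : H) (x : V), τ (k • x) = τ x) (h : H) (a : U V) :
    ty2 τ (ua h a) = ty2 τ a := by
  rcases a with x | p
  · show 2 * τ (h • x) = 2 * τ x
    rw [hty]
  · induction p using Sym2.ind with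
    | _ x y =>
      rw [ua_e, ty2_e, ty2_e, hty, hty]

variable {f : H →* Multiplicative ℤ} {τ : V → ZMod 3}

/-- the subdivision of a cocompact action -/
theorem Cc.sub (D : Cc H T F f τ) (hs : Tri (SG T F D.tri) (SF T F)) :
    (letI := sAct D.ac; Cc H (SG T F D.tri) (SF T F) f (fun a => ty2 τ a.1)) := by
  classical
  letI := sAct D.ac
  have hT := D.tri
  refine ⟨hs, SC.sub D.tri hs D.sc, sAc D.tri D.ac, ?_, ?_, ?_, ?_, ?_⟩
  · intro h a ha h1
    have ha' : ua h a.1 = a.1 := congrArg Subtype.val ha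
    clear ha
    induction a using Sv.ind with
    | h1 x => exact D.inj h x (Sum.inl_injective ha') h1
    | h2 x y hxy =>
      have h2 : s(h • x, h • y) = s(x, y) := Sum.inr_injective ha'
      rw [Sym2.eq_iff] at h2
      rcases h2 with ⟨h2, -⟩ | ⟨h2, -⟩
      · exact D.inj h x h2 h1
      · exfalso
        apply D.tn x y hxy
        rw [← h2, D.ty]
  · obtain ⟨E, hE, hE'⟩ := D.fe
    obtain ⟨P, hP, hP'⟩ := D.ff
    let m1 : V × V → Set (Sv T × Sv T) := fun e => {p | ∃ h : T.Adj e.1 e.2,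
      p = (vv T e.1, ee h) ∨ p = (ee h, vv T e.1)}
    let m2 : (ℤ → V) → Set (Sv T × Sv T) := fun φ => {p | ∃ hφ : φ ∈ F,
      p = (ee (hT.a01 hφ), ee (hT.a12 hφ))}
    have f1 : ∀ e, (m1 e).Finite := by
      intro e
      by_cases h : T.Adj e.1 e.2
      · refine (Set.toFinite {(vv T e.1, ee h), (ee h, vv T e.1)}).subset ?_
        rintro p ⟨_, hp⟩
        exact hp
      · exact Set.finite_empty.subset fun p hp => (h hp.1).elim
    have f2 : ∀ φ, (m2 φ).Finite := by
      intro φ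
      by_cases h : φ ∈ F
      · refine (Set.toFinite {(ee (hT.a01 h), ee (hT.a12 h))}).subset ?_
        rintro p ⟨_, hp⟩
        exact hp
      · exact Set.finite_empty.subset fun p hp => (h hp.1).elim
    refine ⟨(⋃ e ∈ E, m1 e) ∪ ⋃ φ ∈ P, m2 φ,
      (Set.Finite.biUnion hE fun e _ => f1 e).union (Set.Finite.biUnion hP fun φ _ => f2 φ), ?_⟩
    intro a b hab
    rcases sg_cases D.tri hab with ⟨x, y, hxy, hc⟩ | ⟨x, y, z, ⟨φ, hφ, rfl, rfl, rfl⟩, h1, h2, rfl, rfl⟩
    · obtain ⟨g, hg⟩ := hE' x y hxy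
      have e1 : g • vv T x = vv T (g • x) := rfl
      have e2 : g • ee hxy = ee (D.ac.adj g _ _ hxy) := rfl
      refine ⟨g, Or.inl ?_⟩
      simp only [Set.mem_iUnion]
      refine ⟨_, hg, D.ac.adj g _ _ hxy, ?_⟩
      rcases hc with ⟨rfl, rfl⟩ | ⟨rfl, rfl⟩
      · left
        rw [e1, e2]
      · right
        rw [e1, e2]
    · obtain ⟨g, hg⟩ := hP' φ hφ
      have hφ' : (fun i => g • φ i) ∈ F := D.ac.face g φ hφ
      have e1 : g • ee h1 = ee (hT.a01 hφ') := rfl
      have e2 : g • ee h2 = ee (hT.a12 hφ') := rfl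
      refine ⟨g, Or.inr ?_⟩
      simp only [Set.mem_iUnion]
      refine ⟨_, hg, hφ', ?_⟩
      rw [e1, e2]
  · obtain ⟨P, hP, hP'⟩ := D.ff
    refine ⟨⋃ φ ∈ P, ⋃ r ∈ (Finset.range 3 : Set ℕ), ({ψ : ℤ → Sv T | ∀ i, (ψ i).1 =
      Cr φ (i + (r : ℤ))} ∪ {ψ : ℤ → Sv T | ∀ i, (ψ i).1 = Md φ (i + (r : ℤ))}),
        Set.Finite.biUnion hP fun φ _ =>
        Set.Finite.biUnion (Finset.finite_toSet _) fun r _ => ?_, ?_⟩
    · refine Set.Finite.union (Set.Subsingleton.finite ?_) (Set.Subsingleton.finite ?_)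
      · intro ψ hψ ψ' hψ'
        funext i
        exact Subtype.ext ((hψ i).trans (hψ' i).symm)
      · intro ψ hψ ψ' hψ'
        funext i
        exact Subtype.ext ((hψ i).trans (hψ' i).symm)
    · rintro ψ ⟨φ, hφ, k, hk⟩
      obtain ⟨g, hg⟩ := hP' φ hφ
      have hφ' : (fun i => g • φ i) ∈ F := D.ac.face g φ hφ
      refine ⟨g, ?_⟩
      simp only [Set.mem_iUnion]
      refine ⟨_, hg, (k % 3).toNat, by simp; omega, ?_⟩
      have hk3 : (((k % 3).toNat : ℕ) : ℤ) = k % 3 := Int.toNat_of_nonneg (by omega)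
      rcases hk with hk | hk
      · left
        intro i
        show ua g (ψ i).1 = _
        rw [hk, ua_Cr, hk3]
        exact Cr_mod _ (by omega)
      · right
        intro i
        show ua g (ψ i).1 = _
        rw [hk, ua_Md, hk3]
        exact Md_mod (D.tri.per _ hφ') (by omega)
  · intro h a
    exact ty2_ua τ D.ty h a.1
  · intro a b hab
    rcases sg_cases D.tri hab with ⟨x, y, hxy, ⟨rfl, rfl⟩ | ⟨rfl, rfl⟩⟩ |
      ⟨x, y, z, ht, h1, h2, rfl, rfl⟩
    · show 2 * τ x ≠ τ x + τ y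
      intro he
      apply D.tn x y hxy
      rw [two_mul] at he
      exact add_left_cancel he
    · show τ x + τ y ≠ 2 * τ x
      intro he
      apply D.tn x y hxy
      rw [two_mul] at he
      exact (add_left_cancel he).symm
    · show τ x + τ y ≠ τ y + τ z
      intro he
      have hzx : T.Adj z x := hT.tg_adj (hT.tg_rot (hT.tg_rot ht))
      apply D.tn z x hzx
      rw [add_comm (τ y)] at he
      exact (add_right_cancel he).symm

theorem vl_zero {k : H} (h : vl f k = 0) : f k = 1 := by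
  have : Multiplicative.toAdd (f k) = 0 := h
  exact Multiplicative.toAdd.injective this

theorem Cc.gd (hN1 : S_NUM1) (hN2 : S_NUM2) (D : Cc H T F f τ) :
    (letI := sAct D.ac; Gd H (SG T F D.tri) f) := by
  letI := sAct D.ac
  have hT := D.tri
  obtain ⟨m, hm, h1⟩ := hN1 H V T F f τ D
  obtain ⟨B, h2⟩ := hN2 H V T F f τ D
  refine ⟨m * (B + 1), by positivity, ?_⟩
  intro k hk a b hab hkb
  have hkm : (m : ℤ) ∣ vl f k := by
    refine dvd_trans ?_ hk
    exact ⟨(B : ℤ) + 1, by push_cast; ring⟩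
  have hkB : (vl f k).natAbs ≤ B → vl f k = 0 := by
    intro h
    by_contra hne
    have h3 : ((B + 1 : ℕ) : ℤ) ∣ vl f k := by
      refine dvd_trans ?_ hk
      exact ⟨(m : ℤ), by push_cast; ring⟩
    have h4 := Int.natAbs_dvd_natAbs.2 h3
    rw [Int.natAbs_natCast] at h4
    have h5 := Nat.le_of_dvd (Int.natAbs_pos.2 hne) h4
    omega
  have hkb' : (SG T F D.tri).Adj a (k • b) := hkb
  rcases sg_cases D.tri hab with ⟨x, y, hxy, ⟨rfl, rfl⟩ | ⟨rfl, rfl⟩⟩ |
    ⟨x, y, z, ht, hxy, hyz, rfl, rfl⟩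
  · left
    have h3 : x ∈ s(k • x, k • y) := by
      rcases hkb' with h | h
      · exact h
      · exact h.elim
    rw [Sym2.mem_iff] at h3
    refine Subtype.ext ?_
    show Sum.inl (k • x) = Sum.inl x
    rcases h3 with h3 | h3
    · rw [← h3]
    · exfalso
      apply D.tn x y hxy
      have h4 := D.ty k y
      rw [← h3] at h4
      exact h4
  · right
    have h3 : k • x ∈ s(x, y) := by
      rcases hkb' with h | h
      · exact h.elim
      · exact h
    rw [Sym2.mem_iff] at h3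
    refine Subtype.ext ?_
    show Sum.inl (k • x) = Sum.inl x
    rcases h3 with h3 | h3
    · rw [h3]
    · exfalso
      apply D.tn x y hxy
      have h4 := D.ty k x
      rw [h3] at h4
      exact h4.symm
  · have hzx : T.Adj z x := hT.tg_adj (hT.tg_rot (hT.tg_rot ht))
    have hkbe : k • (ee hyz : Sv T) = ee (D.ac.adj k _ _ hyz) := rfl
    rw [hkbe] at hkb'
    rcases sg_cases D.tri hkb' with ⟨x', y', hxy', ⟨e1, e2⟩ | ⟨e1, e2⟩⟩ |
      ⟨x', y', z', ht', hxy', hyz', e1, e2⟩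
    · have := congrArg Subtype.val e1
      cases this
    · have := congrArg Subtype.val e1
      cases this
    · have g1 : s(x, y) = s(x', y') := Sum.inr_injective (congrArg Subtype.val e1)
      have g2 : s(k • y, k • z) = s(y', z') := Sum.inr_injective (congrArg Subtype.val e2)
      rw [Sym2.eq_iff] at g1 g2
      have tk : ∀ u : V, τ (k • u) = τ u := D.ty k
      have good : k • y = y ∧ Tg F x y (k • z) := by
        rcases g1 with ⟨a1, a2⟩ | ⟨a1, a2⟩
        · rcases g2 with ⟨b1, b2⟩ | ⟨b1, b2⟩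
          · refine ⟨b1.trans a2.symm, ?_⟩
            rw [a1, a2, b2]
            exact ht'
          · exfalso
            apply D.tn y z hyz
            rw [← tk z, b2, ← a2]
        · rcases g2 with ⟨b1, b2⟩ | ⟨b1, b2⟩
          · exfalso
            apply D.tn x y hxy
            rw [← tk y, b1, ← a1]
          · exfalso
            apply D.tn z x hzx
            rw [← tk z, b2, ← a1]
      obtain ⟨hky, hkt⟩ := good
      -- `y` is fixed; neighbours `x`, `z`, `k • z` of `y`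
      by_cases hx : ∃ g : H, g ≠ 1 ∧ g • y = y ∧ g • x = x
      · left
        have h3 := h1 y x hxy.symm hx k hky hkm
        refine Subtype.ext ?_
        show Sum.inr s(k • x, k • y) = Sum.inr s(x, y)
        rw [h3, hky]
      by_cases hz : ∃ g : H, g ≠ 1 ∧ g • y = y ∧ g • z = z
      · right
        have h3 := h1 y z hyz hz k hky hkm
        refine Subtype.ext ?_
        show Sum.inr s(k • y, k • z) = Sum.inr s(y, z)
        rw [h3, hky]
      have hx' : ∀ g : H, g • y = y → g • x = x → g = 1 := by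
        intro g e e'
        by_contra hg
        exact hx ⟨g, hg, e, e'⟩
      have hz' : ∀ g : H, g • y = y → g • z = z → g = 1 := by
        intro g e e'
        by_contra hg
        exact hz ⟨g, hg, e, e'⟩
      have hkz' : ∀ g : H, g • y = y → g • (k • z) = k • z → g = 1 := by
        intro g e e'
        have h3 : (k⁻¹ * g * k) • y = y := by
          rw [mul_smul, mul_smul, hky, e, inv_smul_eq_iff, hky]
        have h4 : (k⁻¹ * g * k) • z = z := by
          rw [mul_smul, mul_smul, e', inv_smul_smul]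
        have h5 := hz' _ h3 h4
        have h6 : g = k * (k⁻¹ * g * k) * k⁻¹ := by group
        rw [h6, h5]
        group
      have t1 : Tg F y z x := hT.tg_rot ht
      have t2 : Tg F y x (k • z) := hT.tg_rot (hT.tg_rev hkt)
      have h3 := h2 k y z [x, k • z] (by simp) hky (by simp [t1, t2]) (by simp) (by
        intro u hu
        simp only [List.mem_cons, List.not_mem_nil, or_false] at hu
        rcases hu with rfl | rfl | rfl
        · exact ⟨hyz, hz'⟩
        · exact ⟨hxy.symm, hx'⟩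
        · refine ⟨?_, hkz'⟩
          have := D.ac.adj k _ _ hyz
          rwa [hky] at this)
      have h4 := D.inj k y hky (vl_zero (hkB h3))
      right
      rw [h4]
      exact one_smul _ _

end

/-- SUB, from the fact that the subdivision is a triangle complex -/
theorem sub_of (hsub : ∀ (V : Type) (T : SimpleGraph V) (F : Set (ℤ → V)) (hT : Tri T F),
    Tri (SG T F hT) (SF T F)) : S_SUB := by
  intro hN1 hN2 H V _ _ T F f τ D
  exact ⟨Sv T, sAct D.ac, SG T F D.tri, SF T F, fun a => ty2 τ a.1,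
    D.sub (hsub V T F D.tri), D.gd hN1 hN2⟩

end Run7.h909.T3
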