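import Pool.Agent.Run7.h909.T3.Stm

/-!
# Project T3 (helper909): the subdivision of a triangle complex, definitions
-/

set_option autoImplicit false

namespace Run7.h909.T3

open SimpleGraph Run7.h909.TD

section

variable {V : Type}

/-- the vertices and the edges -/
abbrev U (V : Type) : Type := V ⊕ Sym2 V

/-- the vertices and the edges of a complex -/
def Good (T : SimpleGraph V) : U V → Prop
  | Sum.inl _ => True
  | Sum.inr p => p ∈ T.edgeSet

/-- the incidence of a vertex and an edge, and of two edges of a triangle -/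
def Inc (F : Set (ℤ → V)) : U V → U V → Prop
  | Sum.inl x, Sum.inr p => x ∈ p
  | Sum.inr p, Sum.inr q => ∃ φ ∈ F, p = s(φ 0, φ 1) ∧ q = s(φ 1, φ 2)
  | _, _ => False

/-- the corner triangle at `φ 0` -/
def Cr (φ : ℤ → V) (i : ℤ) : U V :=
  if i % 3 = 0 then Sum.inl (φ 0) else if i % 3 = 1 then Sum.inr s(φ 0, φ 1) else
    Sum.inr s(φ 0, φ (-1))

/-- the middle triangle -/
def Md (φ : ℤ → V) (i : ℤ) : U V := Sum.inr s(φ i, φ (i + 1))

theorem Cr0 (φ : ℤ → V) {i : ℤ} (h : i % 3 = 0) : Cr φ i = Sum.inl (φ 0) := by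
  rw [Cr, if_pos h]

theorem Cr1 (φ : ℤ → V) {i : ℤ} (h : i % 3 = 1) : Cr φ i = Sum.inr s(φ 0, φ 1) := by
  rw [Cr, if_neg (by omega), if_pos h]

theorem Cr2 (φ : ℤ → V) {i : ℤ} (h : i % 3 = 2) : Cr φ i = Sum.inr s(φ 0, φ (-1)) := by
  rw [Cr, if_neg (by omega), if_neg (by omega)]

theorem mod3 (i : ℤ) : i % 3 = 0 ∨ i % 3 = 1 ∨ i % 3 = 2 := by omega

theorem Cr_mod (φ : ℤ → V) {i j : ℤ} (h : (3 : ℤ) ∣ i - j) : Cr φ i = Cr φ j := by
  unfold Cr
  have : i % 3 = j % 3 := by omega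
  rw [this]

theorem Cr_neg (φ : ℤ → V) (i : ℤ) : Cr φ (-i) = Cr (fun j => φ (-j)) i := by
  rcases mod3 i with h | h | h
  · rw [Cr0 _ h, Cr0 _ (i := -i) (by omega)]
    rfl
  · rw [Cr1 _ h, Cr2 _ (i := -i) (by omega)]
    rfl
  · rw [Cr2 _ h, Cr1 _ (i := -i) (by omega)]
    simp

theorem Md_neg (φ : ℤ → V) (i : ℤ) : Md φ (-i) = Md (fun j => φ (-j)) (i - 1) := by
  show (Sum.inr s(φ (-i), φ (-i + 1)) : U V) = Sum.inr s(φ (-(i - 1)), φ (-(i - 1 + 1)))
  rw [Sym2.eq_swap]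
  congr 3
  · ring
  · ring

theorem per3_eq {φ : ℤ → V} (h : Per φ 3) {i j : ℤ} (hij : i % 3 = j % 3) : φ i = φ j := by
  refine (h _ _).2 ?_
  push_cast
  omega

theorem Md_mod {φ : ℤ → V} (hp : Per φ 3) {i j : ℤ} (h : (3 : ℤ) ∣ i - j) : Md φ i = Md φ j := by
  unfold Md
  rw [per3_eq hp (i := i) (j := j) (by omega), per3_eq hp (i := i + 1) (j := j + 1) (by omega)]

/-- the vertices of the subdivision -/
def Sv (T : SimpleGraph V) : Type := {a : U V // Good T a}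

/-- the graph of the subdivision -/
def SG (T : SimpleGraph V) (F : Set (ℤ → V)) (hT : Tri T F) : SimpleGraph (Sv T) where
  Adj a b := Inc F a.1 b.1 ∨ Inc F b.1 a.1
  symm := ⟨fun _ _ h => h.symm⟩
  loopless := ⟨fun a h => by
    obtain ⟨a, ha⟩ := a
    rcases a with x | p
    · exact h.elim id id
    · have key : ¬ ∃ φ ∈ F, p = s(φ 0, φ 1) ∧ p = s(φ 1, φ 2) := by
        rintro ⟨φ, hφ, e1, e2⟩
        rw [e1, Sym2.eq_iff] at e2
        have hp := hT.per φ hφ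
        rcases e2 with ⟨e, -⟩ | ⟨e, -⟩
        · have := (hp _ _).1 e
          omega
        · have := (hp _ _).1 e
          omega
      exact h.elim key key⟩

/-- the triangles of the subdivision -/
def SF (T : SimpleGraph V) (F : Set (ℤ → V)) : Set (ℤ → Sv T) :=
  {ψ | ∃ φ ∈ F, ∃ k : ℤ, (∀ i, (ψ i).1 = Cr φ (i + k)) ∨ (∀ i, (ψ i).1 = Md φ (i + k))}

end

end Run7.h909.T3
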