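import Pool.Agent.Run7.h909.T3.Stm

/-!
# Project T3 of helper909, for TREE: subgraphs which are trees because each other edge has a third vertex
-/

set_option autoImplicit false

namespace Run7.h993.T3

open SimpleGraph Run7.h909.TD Run7.h909.T3
open Run7.h909.TT (tree_of_coc)

section

variable {V : Type} {T Γ : SimpleGraph V} {F : Set (ℤ → V)}

open Classical in
/-- the extension of a cocycle -/
noncomputable def Eo {L : Type} [Group L] (Γ : SimpleGraph V) (Th : V → V → V → Prop)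
    (c : V → V → L) : ℕ → V → V → L
  | 0, x, y => if Γ.Adj x y then c x y else 1
  | n + 1, x, y => if Γ.Adj x y then c x y else
      if h : ∃ t, Th x y t then Eo Γ Th c n x h.choose * Eo Γ Th c n h.choose y else 1

theorem Eo_adj {L : Type} [Group L] {Th : V → V → V → Prop} {c : V → V → L} (n : ℕ) {x y : V}
    (h : Γ.Adj x y) : Eo Γ Th c n x y = c x y := by
  cases n with
  | zero => rw [Eo, if_pos h]
  | succ n => rw [Eo, if_pos h]

theorem tree_of_third (hper : ∀ φ ∈ F, Per φ 3) (hs : SC T F) (hle : Γ ≤ T)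
    (Th : V → V → V → Prop) (ρ : V → V → ℕ)
    (hsym : ∀ x y t, Th x y t → Th y x t)
    (hex : ∀ x y, T.Adj x y → ¬ Γ.Adj x y → ∃ t, Th x y t)
    (hun : ∀ x y t t', T.Adj x y → ¬ Γ.Adj x y → Th x y t → Th x y t' → t = t')
    (hadj : ∀ x y t, T.Adj x y → ¬ Γ.Adj x y → Th x y t → T.Adj x t ∧ T.Adj t y)
    (hρ : ∀ x y t, T.Adj x y → ¬ Γ.Adj x y → Th x y t → ρ x t < ρ x y ∧ ρ t y < ρ x y)
    (htri : ∀ x y z, Tg F x y z → (T.Adj x y ∧ T.Adj y z ∧ T.Adj z x) ∧
      ((¬ Γ.Adj x y ∧ Th x y z) ∨ (¬ Γ.Adj y z ∧ Th y z x) ∨ (¬ Γ.Adj z x ∧ Th z x y))) :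
    Γ.IsTree := by
  classical
  have hreach : ∀ n : ℕ, ∀ x y : V, T.Adj x y → ρ x y = n → Γ.Reachable x y := by
    intro n
    induction n using Nat.strong_induction_on with
    | _ n IH =>
      intro x y hxy hn
      by_cases hg : Γ.Adj x y
      · exact hg.reachable
      · obtain ⟨t, ht⟩ := hex x y hxy hg
        obtain ⟨a1, a2⟩ := hadj x y t hxy hg ht
        obtain ⟨r1, r2⟩ := hρ x y t hxy hg ht
        exact (IH _ (by omega) x t a1 rfl).trans (IH _ (by omega) t y a2 rfl)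
  have hconn : Γ.Connected := by
    have hne := hs.1.nonempty
    refine ⟨fun x y => ?_⟩
    have hr := hs.1.preconnected x y
    rw [reachable_iff_reflTransGen] at hr
    induction hr with
    | refl => exact Reachable.refl _
    | @tail b d _ hbd ih => exact ih.trans (hreach _ b d hbd rfl)
  refine tree_of_coc hconn ?_
  intro c hc
  -- one step
  have hstep : ∀ (n : ℕ) (x y t : V), T.Adj x y → ¬ Γ.Adj x y → Th x y t →
      Eo Γ Th c (n + 1) x y = Eo Γ Th c n x t * Eo Γ Th c n t y := by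
    intro n x y t hxy hg ht
    have h : ∃ t, Th x y t := ⟨t, ht⟩
    rw [Eo, if_neg hg, dif_pos h, hun x y _ t hxy hg h.choose_spec ht]
  -- stability
  have hst : ∀ (N : ℕ) (x y : V), T.Adj x y → ρ x y = N → ∀ n m : ℕ, N ≤ n → N ≤ m →
      Eo Γ Th c n x y = Eo Γ Th c m x y := by
    intro N
    induction N using Nat.strong_induction_on with
    | _ N IH =>
      intro x y hxy hN n m hn hm
      by_cases hg : Γ.Adj x y
      · rw [Eo_adj n hg, Eo_adj m hg]
      · obtain ⟨t, ht⟩ := hex x y hxy hg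
        obtain ⟨a1, a2⟩ := hadj x y t hxy hg ht
        obtain ⟨r1, r2⟩ := hρ x y t hxy hg ht
        obtain ⟨n', rfl⟩ : ∃ n', n = n' + 1 := ⟨n - 1, by omega⟩
        obtain ⟨m', rfl⟩ : ∃ m', m = m' + 1 := ⟨m - 1, by omega⟩
        rw [hstep n' x y t hxy hg ht, hstep m' x y t hxy hg ht,
          IH _ (by omega) x t a1 rfl n' m' (by omega) (by omega),
          IH _ (by omega) t y a2 rfl n' m' (by omega) (by omega)]
  let e : V → V → Multiplicative ℤ := fun x y => Eo Γ Th c (ρ x y) x y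
  have heq : ∀ x y t, T.Adj x y → ¬ Γ.Adj x y → Th x y t → e x y = e x t * e t y := by
    intro x y t hxy hg ht
    obtain ⟨a1, a2⟩ := hadj x y t hxy hg ht
    obtain ⟨r1, r2⟩ := hρ x y t hxy hg ht
    show Eo Γ Th c (ρ x y) x y = Eo Γ Th c (ρ x t) x t * Eo Γ Th c (ρ t y) t y
    obtain ⟨n', hn'⟩ : ∃ n', ρ x y = n' + 1 := ⟨ρ x y - 1, by omega⟩
    rw [hn', hstep n' x y t hxy hg ht, hst _ x t a1 rfl n' (ρ x t) (by omega) le_rfl,
      hst _ t y a2 rfl n' (ρ t y) (by omega) le_rfl]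
  have hinv : ∀ (N : ℕ) (x y : V), T.Adj x y → ρ x y = N → e x y * e y x = 1 := by
    intro N
    induction N using Nat.strong_induction_on with
    | _ N IH =>
      intro x y hxy hN
      by_cases hg : Γ.Adj x y
      · show Eo Γ Th c _ x y * Eo Γ Th c _ y x = 1
        rw [Eo_adj _ hg, Eo_adj _ hg.symm]
        exact hc x y hg
      · obtain ⟨t, ht⟩ := hex x y hxy hg
        obtain ⟨a1, a2⟩ := hadj x y t hxy hg ht
        obtain ⟨r1, r2⟩ := hρ x y t hxy hg ht
        have e1 := IH _ (by omega) x t a1 rfl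
        have e2 := IH _ (by omega) t y a2 rfl
        rw [heq x y t hxy hg ht, heq y x t hxy.symm (fun h => hg h.symm) (hsym x y t ht)]
        have : e x t * e t y * (e y t * e t x) = (e x t * e t x) * (e t y * e y t) := by
          rw [mul_mul_mul_comm, mul_comm (e t y) (e t x), mul_assoc (e x t),
            mul_mul_mul_comm, mul_comm (e y t)]
          ac_rfl
        rw [this, e1, e2, mul_one]
  have hcoc : Coc T F e := by
    refine ⟨fun x y h => hinv _ x y h rfl, ?_⟩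
    intro φ hφ n hn
    have hn3 : n = 3 := hn.unique (hper φ hφ)
    subst hn3
    have h30 : φ 3 = φ 0 := (hper φ hφ _ _).2 ⟨1, by norm_num⟩
    have hw : wrap e φ 3 = e (φ 0) (φ 1) * e (φ 1) (φ 2) * e (φ 2) (φ 3) := by
      rw [wrap_succ, wrap_succ, wrap_succ, wrap_zero, one_mul]
      norm_num
    rw [hw, h30]
    obtain ⟨⟨a1, a2, a3⟩, h⟩ := htri (φ 0) (φ 1) (φ 2) ⟨φ, hφ, rfl, rfl, rfl⟩
    have i1 := hinv _ _ _ a1 rfl
    have i2 := hinv _ _ _ a2 rfl
    have i3 := hinv _ _ _ a3 rfl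
    have j1 := hinv _ _ _ a1.symm rfl
    have j2 := hinv _ _ _ a2.symm rfl
    have j3 := hinv _ _ _ a3.symm rfl
    rcases h with ⟨hg, ht⟩ | ⟨hg, ht⟩ | ⟨hg, ht⟩
    · rw [heq _ _ _ a1 hg ht]
      have : e (φ 0) (φ 2) * e (φ 2) (φ 1) * e (φ 1) (φ 2) * e (φ 2) (φ 0) =
          (e (φ 0) (φ 2) * e (φ 2) (φ 0)) * (e (φ 2) (φ 1) * e (φ 1) (φ 2)) := by ac_rfl
      rw [this, j3, j2, mul_one]
    · rw [heq _ _ _ a2 hg ht]
      have : e (φ 0) (φ 1) * (e (φ 1) (φ 0) * e (φ 0) (φ 2)) * e (φ 2) (φ 0) =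
          (e (φ 0) (φ 1) * e (φ 1) (φ 0)) * (e (φ 0) (φ 2) * e (φ 2) (φ 0)) := by ac_rfl
      rw [this, i1, j3, mul_one]
    · rw [heq _ _ _ a3 hg ht]
      have : e (φ 0) (φ 1) * e (φ 1) (φ 2) * (e (φ 2) (φ 1) * e (φ 1) (φ 0)) =
          (e (φ 0) (φ 1) * e (φ 1) (φ 0)) * (e (φ 1) (φ 2) * e (φ 2) (φ 1)) := by ac_rfl
      rw [this, i1, i2, mul_one]
  obtain ⟨f, hf⟩ := hs.2 _ _ hcoc
  refine ⟨f, fun x y h => ?_⟩
  rw [← hf x y (hle h)]
  show c x y = Eo Γ Th c _ x y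
  rw [Eo_adj _ h]

end

end Run7.h993.T3
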