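import Pool.Agent.Run7.h417.T3.QUOT
import Pool.Agent.Run7.h993.T3.Third
import Pool.Agent.Run7.h993.T3.Chain

/-!
# Project T3 of helper909, piece TREE: the invariant tree, from the levels in the quotient
-/

set_option autoImplicit false

namespace Run7.h993.T3

open SimpleGraph Run7.h909.TD Run7.h909.T3
open Run7.h909.TT (Orb QT QF)
open Run7.h417.T3 (QT_adj nbr_orb lift_edge lift_tg)

section

variable {K V W : Type} [Group K] [MulAction K V]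

/-- the stabilizer of `x` fixes `y` -/
def Fx (K : Type) [Group K] {V : Type} [MulAction K V] (x y : V) : Prop :=
  ∀ k : K, k • x = x → k • y = y

theorem Fx.conj {x y : V} (h : Fx K x y) (g : K) : Fx K (g • x) (g • y) := by
  intro a ha
  have h1 : (g⁻¹ * a * g) • x = x := by rw [mul_smul, mul_smul, ha, inv_smul_smul]
  have h2 := h _ h1
  rw [mul_smul, mul_smul] at h2
  have h3 := congrArg (fun v => g • v) h2
  simp only [smul_inv_smul] at h3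
  exact h3

/-- special horizontal edges -/
def Sp (K : Type) [Group K] {V W : Type} [MulAction K V] (T : SimpleGraph V) (F : Set (ℤ → V))
    (q : V → W) (τ : V → ZMod 3) (ℓ : W → ℕ) (x y : V) : Prop :=
  T.Adj x y ∧ ℓ (q x) = ℓ (q y) ∧ Fx K x y ∧ τ y = τ x + 1 ∧
    ∃ z, Tg F x y z ∧ ℓ (q z) + 1 = ℓ (q x) ∧ ¬ Fx K x z

/-- lower neighbours fixed by the stabilizer -/
def Lf (K : Type) [Group K] {V W : Type} [MulAction K V] (T : SimpleGraph V)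
    (q : V → W) (ℓ : W → ℕ) (a b : W) : Prop :=
  ∃ x y, T.Adj x y ∧ q x = a ∧ q y = b ∧ ℓ b + 1 = ℓ a ∧ Fx K x y

/-- lower vertices of special edges -/
def Ls (K : Type) [Group K] {V W : Type} [MulAction K V] (T : SimpleGraph V) (F : Set (ℤ → V))
    (q : V → W) (τ : V → ZMod 3) (ℓ : W → ℕ) (a b : W) : Prop :=
  ∃ x y z, Sp K T F q τ ℓ x y ∧ Tg F x y z ∧ q x = a ∧ q z = b ∧ ℓ b + 1 = ℓ a

/-- lower neighbours -/
def Ld {V W : Type} (T : SimpleGraph V) (q : V → W) (ℓ : W → ℕ) (a b : W) : Prop :=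
  (QT T q).Adj a b ∧ ℓ b + 1 = ℓ a

open Classical in
/-- the preferred lower neighbour -/
noncomputable def p0 (K : Type) [Group K] {V W : Type} [MulAction K V] (T : SimpleGraph V)
    (F : Set (ℤ → V)) (q : V → W) (τ : V → ZMod 3) (ℓ : W → ℕ) (a : W) : W :=
  if h : ∃ b, Lf K T q ℓ a b then h.choose else if h : ∃ b, Ls K T F q τ ℓ a b then h.choose else
    if h : ∃ b, Ld T q ℓ a b then h.choose else a

/-- half of the tree -/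
def Gh (K : Type) [Group K] {V W : Type} [MulAction K V] (T : SimpleGraph V) (F : Set (ℤ → V))
    (q : V → W) (τ : V → ZMod 3) (ℓ : W → ℕ) (x y : V) : Prop :=
  Sp K T F q τ ℓ x y ∨ (ℓ (q y) + 1 = ℓ (q x) ∧ q y = p0 K T F q τ ℓ (q x) ∧
    ∀ y', ¬ Sp K T F q τ ℓ x y')

/-- the tree -/
def Gm (K : Type) [Group K] {V W : Type} [MulAction K V] (T : SimpleGraph V) (F : Set (ℤ → V))
    (q : V → W) (τ : V → ZMod 3) (ℓ : W → ℕ) : SimpleGraph V where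
  Adj x y := T.Adj x y ∧ (Gh K T F q τ ℓ x y ∨ Gh K T F q τ ℓ y x)
  symm := ⟨fun _ _ h => ⟨h.1.symm, h.2.symm⟩⟩
  loopless := ⟨fun _ h => T.loopless.irrefl _ h.1⟩

variable {T : SimpleGraph V} {F : Set (ℤ → V)} {q : V → W} {τ : V → ZMod 3} {o : W} {ℓ : W → ℕ}


/-- the data -/
structure Ct (K : Type) [Group K] {V W : Type} [MulAction K V] (T : SimpleGraph V)
    (F : Set (ℤ → V)) (q : V → W) (τ : V → ZMod 3) (o : W) (ℓ : W → ℕ) : Prop where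
  D : Dat K T F q τ
  L : Lv (QT T q) (QF F q) o ℓ

theorem Ct.qk (E : Ct K T F q τ o ℓ) (k : K) (x : V) : q (k • x) = q x :=
  ((E.D.hq.eq _ _).2 ⟨k, rfl⟩).symm

theorem Ct.tgk (E : Ct K T F q τ o ℓ) (k : K) {x y z : V} (h : Tg F x y z) :
    Tg F (k • x) (k • y) (k • z) := by
  obtain ⟨φ, hφ, rfl, rfl, rfl⟩ := h
  exact ⟨_, E.D.ac.face k φ hφ, rfl, rfl, rfl⟩

theorem Ct.tgq (_E : Ct K T F q τ o ℓ) {x y z : V} (h : Tg F x y z) :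
    Tg (QF F q) (q x) (q y) (q z) := by
  obtain ⟨φ, hφ, rfl, rfl, rfl⟩ := h
  exact ⟨_, ⟨φ, hφ, rfl⟩, rfl, rfl, rfl⟩

theorem Ct.adjq (E : Ct K T F q τ o ℓ) {x y : V} (h : T.Adj x y) : (QT T q).Adj (q x) (q y) :=
  (QT_adj E.D.nic E.D.hq).2 ⟨x, y, h, rfl, rfl⟩

theorem Ct.nbr (E : Ct K T F q τ o ℓ) {x y y' : V} (h : T.Adj x y) (h' : T.Adj x y')
    (he : q y = q y') : ∃ k : K, k • x = x ∧ k • y = y' := by
  obtain ⟨k, hk⟩ := (E.D.hq.eq _ _).1 he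
  obtain ⟨z, h1, h2⟩ := nbr_orb (k := k) E.D.nic h (by rw [hk]; exact h')
  exact ⟨z, h1, by rw [h2, hk]⟩

theorem Ct.liftA (E : Ct K T F q τ o ℓ) {x : V} {b : W} (h : (QT T q).Adj (q x) b) :
    ∃ y, T.Adj x y ∧ q y = b := by
  obtain ⟨x1, y1, h1, h2, h3⟩ := (QT_adj E.D.nic E.D.hq).1 h
  obtain ⟨k, hk⟩ := (E.D.hq.eq _ _).1 h2
  refine ⟨k • y1, ?_, by rw [E.qk, h3]⟩
  have := E.D.ac.adj k _ _ h1
  rwa [hk] at this

theorem Ct.G1 (E : Ct K T F q τ o ℓ) {x y y' z : V} (h1 : Fx K x y) (h2 : Fx K x y') (hne : y ≠ y')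
    (t1 : Tg F x y z) (t2 : Tg F x z y') : Fx K x z := by
  intro k hk
  have t3 := E.tgk k t1
  have t4 := E.tgk k t2
  rw [hk, h1 k hk] at t3
  rw [hk, h2 k hk] at t4
  rcases E.D.tri.g4 x y z y' (k • z) t1 t2 (tg_sw E.D.tri t4) (tg_sw E.D.tri t3) with h | h
  · exact absurd h hne
  · exact h.symm

theorem Ct.lev (E : Ct K T F q τ o ℓ) {x y : V} (h : T.Adj x y) :
    ℓ (q x) ≤ ℓ (q y) + 1 ∧ ℓ (q y) ≤ ℓ (q x) + 1 :=
  ⟨E.L.step _ _ (E.adjq h), E.L.step _ _ (E.adjq h.symm)⟩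

theorem Ct.lowq (E : Ct K T F q τ o ℓ) {x a b : V} (ha : T.Adj x a) (hb : T.Adj x b)
    (la : ℓ (q a) + 1 = ℓ (q x)) (lb : ℓ (q b) + 1 = ℓ (q x)) (hne : q a ≠ q b) :
    Tg (QF F q) (q x) (q a) (q b) := E.L.low _ _ _ (E.adjq ha) (E.adjq hb) la lb hne

theorem Ct.lift (E : Ct K T F q τ o ℓ) {x a : V} {b : W} (h : T.Adj x a)
    (ht : Tg (QF F q) (q x) (q a) b) : ∃ c, q c = b ∧ Tg F x a c :=
  lift_tg E.D.tri E.D.ac E.D.hq E.D.nic h ht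

theorem z3 : ∀ a b c : ZMod 3, a ≠ b → b ≠ c → a ≠ c → a + b + c = 0 := by decide

theorem z3' : ∀ a b : ZMod 3, a ≠ b → b = a + 1 ∨ a = b + 1 := by decide

theorem Ct.ty3 (E : Ct K T F q τ o ℓ) {x y z : V} (h : Tg F x y z) : τ x + τ y + τ z = 0 :=
  z3 _ _ _ (E.D.tn _ _ (tg_a1 E.D.tri h)) (E.D.tn _ _ (tg_a3 E.D.tri h))
    (E.D.tn _ _ (tg_a2 E.D.tri h))

theorem Ct.spk (E : Ct K T F q τ o ℓ) (k : K) {x y : V} (h : Sp K T F q τ ℓ x y) : Sp K T F q τ ℓ (k • x) (k • y) := by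
  obtain ⟨h1, h2, h3, h4, z, h5, h6, h7⟩ := h
  refine ⟨E.D.ac.adj k _ _ h1, by rw [E.qk, E.qk, h2], h3.conj k, by rw [E.D.ty, E.D.ty, h4],
    k • z, E.tgk k h5, by rw [E.qk, E.qk, h6], fun h => h7 ?_⟩
  have := h.conj k⁻¹
  rwa [inv_smul_smul, inv_smul_smul] at this

/-- an edge with a nontrivial stabilizer -/
theorem Ct.fxe (E : Ct K T F q τ o ℓ) {x y : V} (h : T.Adj x y) {k : K} (hk : k ≠ 1)
    (h1 : k • x = x) (h2 : k • y = y) : Fx K x y ∧ Fx K y x :=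
  ⟨E.D.fx x y h ⟨k, hk, h1, h2⟩, E.D.fx y x h.symm ⟨k, hk, h2, h1⟩⟩

/-- a special edge, in the other direction -/
theorem Ct.spr (E : Ct K T F q τ o ℓ) {x y z : V} (h : T.Adj x y) (h1 : Fx K x y)
    (h2 : ¬ Fx K x z) : Fx K y x := by
  unfold Fx at h2
  push Not at h2
  obtain ⟨k, hk, hk'⟩ := h2
  refine (E.fxe h (k := k) ?_ hk (h1 k hk)).2
  rintro rfl
  exact hk' (one_smul _ _)

/-- no lower fixed neighbours at special edges -/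
theorem Ct.lowFix (E : Ct K T F q τ o ℓ) {x y w : V} (hs : Sp K T F q τ ℓ x y) (hw : T.Adj x w)
    (lw : ℓ (q w) + 1 = ℓ (q x)) (hf : Fx K x w) : False := by
  obtain ⟨h1, h2, h3, -, z, h5, h6, h7⟩ := hs
  by_cases he : q w = q z
  · obtain ⟨k, k1, k2⟩ := E.nbr hw (tg_a2 E.D.tri h5) he
    rw [hf k k1] at k2
    exact h7 (k2 ▸ hf)
  · obtain ⟨w1, e1, e2⟩ := E.lift (tg_a2 E.D.tri h5)
      (E.lowq (tg_a2 E.D.tri h5) hw h6 lw (fun e => he e.symm))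
    obtain ⟨k, k1, k2⟩ := E.nbr hw (tg_a2 E.D.tri e2) e1.symm
    rw [hf k k1] at k2
    subst k2
    refine h7 (E.G1 h3 hf ?_ h5 e2)
    rintro rfl
    omega

/-- the special neighbour is unique -/
theorem Ct.spU (E : Ct K T F q τ o ℓ) {x y y1 : V} (hs : Sp K T F q τ ℓ x y) (hs1 : Sp K T F q τ ℓ x y1) : y = y1 := by
  by_contra hne
  obtain ⟨h1, h2, h3, h4, z, h5, h6, h7⟩ := hs
  obtain ⟨g1, g2, g3, g4, z1, g5, g6, g7⟩ := hs1
  by_cases he : q z = q z1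
  · obtain ⟨k, k1, k2⟩ := E.nbr (tg_a2 E.D.tri h5) (tg_a2 E.D.tri g5) he
    have t := E.tgk k h5
    rw [k1, k2, h3 k k1] at t
    exact g7 (E.G1 h3 g3 hne t (tg_sw E.D.tri g5))
  · obtain ⟨z2, e1, e2⟩ := E.lift (tg_a2 E.D.tri h5)
      (E.lowq (tg_a2 E.D.tri h5) (tg_a2 E.D.tri g5) h6 g6 he)
    obtain ⟨k, k1, k2⟩ := E.nbr (tg_a2 E.D.tri g5) (tg_a2 E.D.tri e2) e1.symm
    have t1 := E.ty3 h5
    have t2 := E.ty3 g5
    have t3 : τ z2 = τ z1 := by rw [← k2, E.D.ty]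
    refine E.D.tn _ _ (tg_a3 E.D.tri e2) ?_
    rw [t3]
    rw [h4] at t1
    rw [g4] at t2
    exact add_left_cancel (t1.trans t2.symm)

/-- the lower vertex of a horizontal edge is unique modulo `K` -/
theorem Ct.HU (E : Ct K T F q τ o ℓ) {x y z z1 : V} (h : Tg F x y z) (h1 : Tg F x y z1)
    (l : ℓ (q z) + 1 = ℓ (q x)) (l1 : ℓ (q z1) + 1 = ℓ (q x)) : q z = q z1 := by
  by_contra he
  exact E.D.tri'.g3 _ _ _ _ (E.tgq h) (E.lowq (tg_a2 E.D.tri h) (tg_a2 E.D.tri h1) l l1 he)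
    (E.tgq (tg_sw E.D.tri h1))

theorem p0_lf {a : W} (h : ∃ b, Lf K T q ℓ a b) : Lf K T q ℓ a (p0 K T F q τ ℓ a) := by
  unfold p0
  rw [dif_pos h]
  exact h.choose_spec

theorem p0_ls {a : W} (h : ¬ ∃ b, Lf K T q ℓ a b) (h1 : ∃ b, Ls K T F q τ ℓ a b) :
    Ls K T F q τ ℓ a (p0 K T F q τ ℓ a) := by
  unfold p0
  rw [dif_neg h, dif_pos h1]
  exact h1.choose_spec

theorem Ct.p0_ld (E : Ct K T F q τ o ℓ) {a : W} (h : ∃ b, Ld T q ℓ a b) : Ld T q ℓ a (p0 K T F q τ ℓ a) := by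
  by_cases h1 : ∃ b, Lf K T q ℓ a b
  · obtain ⟨x, y, e1, e2, e3, e4, -⟩ := p0_lf (F := F) (τ := τ) h1
    exact ⟨by rw [← e3, ← e2]; exact E.adjq e1, e4⟩
  · by_cases h2 : ∃ b, Ls K T F q τ ℓ a b
    · obtain ⟨x, y, z, -, e1, e2, e3, e4⟩ := p0_ls h1 h2
      exact ⟨by rw [← e3, ← e2]; exact E.adjq (tg_a2 E.D.tri e1), e4⟩
    · unfold p0
      rw [dif_neg h1, dif_neg h2, dif_pos h]
      exact h.choose_spec

/-- there is a preferred lower neighbour -/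
theorem Ct.P1 (E : Ct K T F q τ o ℓ) {x w : V} (h : T.Adj x w) (l : ℓ (q w) + 1 = ℓ (q x)) :
    Ld T q ℓ (q x) (p0 K T F q τ ℓ (q x)) := E.p0_ld ⟨q w, E.adjq h, l⟩

/-- the preferred lower neighbour is fixed, if one is -/
theorem Ct.P2 (E : Ct K T F q τ o ℓ) {x w u : V} (h : T.Adj x w) (l : ℓ (q w) + 1 = ℓ (q x))
    (hf : Fx K x w) (hu : T.Adj x u) (hq : q u = p0 K T F q τ ℓ (q x)) : Fx K x u := by
  obtain ⟨x0, u0, e1, e2, e3, -, e5⟩ := p0_lf (F := F) (τ := τ) (K := K) (T := T) (q := q)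
    (ℓ := ℓ) (a := q x) ⟨q w, x, w, h, rfl, rfl, l, hf⟩
  obtain ⟨k, k1, k2⟩ := lift_edge E.D.nic E.D.ac E.D.hq e1 hu e2 (e3.trans hq.symm)
  have := e5.conj k
  rwa [k1, k2] at this

/-- the preferred lower neighbour at a special edge -/
theorem Ct.P3 (E : Ct K T F q τ o ℓ) {x y u : V} (hs : Sp K T F q τ ℓ x y) (hu : T.Adj x u)
    (hq : q u = p0 K T F q τ ℓ (q x)) : Tg F x y u := by
  have h1 : ¬ ∃ b, Lf K T q ℓ (q x) b := by
    rintro ⟨b, x0, w0, e1, e2, e3, e4, e5⟩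
    obtain ⟨k, hk⟩ := (E.D.hq.eq _ _).1 e2
    have a1 := E.D.ac.adj k _ _ e1
    have a2 := e5.conj k
    rw [hk] at a1 a2
    exact E.lowFix hs a1 (by rw [E.qk, e3, e4]) a2
  have h2 : ∃ b, Ls K T F q τ ℓ (q x) b := by
    obtain ⟨g1, g2, g3, g4, z, g5, g6, g7⟩ := hs
    exact ⟨q z, x, y, z, ⟨g1, g2, g3, g4, z, g5, g6, g7⟩, g5, rfl, rfl, g6⟩
  obtain ⟨x0, y0, z0, f1, f2, f3, f4, f5⟩ := p0_ls h1 h2
  obtain ⟨k, hk⟩ := (E.D.hq.eq _ _).1 f3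
  have b1 := E.spk k f1
  have b2 := E.tgk k f2
  rw [hk] at b1 b2
  rw [← E.spU hs b1] at b2
  obtain ⟨k1, c1, c2⟩ := E.nbr (tg_a2 E.D.tri b2) hu (by rw [E.qk, f4, hq])
  have b3 := E.tgk k1 b2
  rw [c1, c2, hs.2.2.1 k1 c1] at b3
  exact b3

theorem Ct.P3' (E : Ct K T F q τ o ℓ) {x y z : V} (hs : Sp K T F q τ ℓ x y) (h : Tg F x y z)
    (l : ℓ (q z) + 1 = ℓ (q x)) : q z = p0 K T F q τ ℓ (q x) := by
  obtain ⟨h1, h2⟩ := E.P1 (tg_a2 E.D.tri h) l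
  obtain ⟨u, hu, hu'⟩ := E.liftA h1
  rw [← hu']
  exact E.HU h (E.P3 hs hu hu') l (by rw [hu']; exact h2)

/-- no horizontal triangles -/
theorem Ct.noh (E : Ct K T F q τ o ℓ) {x y z : V} (h : Tg F x y z) (h1 : ℓ (q x) = ℓ (q y))
    (h2 : ℓ (q x) = ℓ (q z)) : False := by
  have hT := E.D.tri'
  obtain ⟨u, u1, u2⟩ := E.L.hor _ _ (E.adjq (tg_a1 E.D.tri h)) h1
  obtain ⟨v, v1, v2⟩ := E.L.hor _ _ (E.adjq (tg_a2 E.D.tri h)) h2
  have t := E.tgq h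
  by_cases huv : u = v
  · subst huv
    exact hT.g3 _ _ _ _ u1 (tg_sw hT v1) (tg_sw hT t)
  · have t1 := E.L.low _ _ _ (tg_a2 hT u1) (tg_a2 hT v1) u2 v2 huv
    rcases hT.g4 _ _ _ _ _ u1 t1 (tg_sw hT v1) (tg_sw hT t) with e | e
    · rw [e] at h1
      omega
    · rw [← e] at h2
      omega

/-- `t` is the third vertex of the triangle of the edge `x y` -/
def Th (K : Type) [Group K] {V W : Type} [MulAction K V] (T : SimpleGraph V) (F : Set (ℤ → V))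
    (q : V → W) (τ : V → ZMod 3) (ℓ : W → ℕ) (x y t : V) : Prop :=
  Tg F x y t ∧
    ((ℓ (q y) + 1 = ℓ (q x) ∧ ((q y ≠ p0 K T F q τ ℓ (q x) ∧ q t = p0 K T F q τ ℓ (q x)) ∨
      (q y = p0 K T F q τ ℓ (q x) ∧ Sp K T F q τ ℓ x t))) ∨
    (ℓ (q x) + 1 = ℓ (q y) ∧ ((q x ≠ p0 K T F q τ ℓ (q y) ∧ q t = p0 K T F q τ ℓ (q y)) ∨
      (q x = p0 K T F q τ ℓ (q y) ∧ Sp K T F q τ ℓ y t))) ∨
    (ℓ (q x) = ℓ (q y) ∧ ℓ (q t) + 1 = ℓ (q x)))

theorem Ct.th_sym (E : Ct K T F q τ o ℓ) (x y t : V) (h : Th K T F q τ ℓ x y t) :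
    Th K T F q τ ℓ y x t := by
  refine ⟨tg_sw E.D.tri (tg_rot E.D.tri h.1), ?_⟩
  rcases h.2 with h2 | h2 | h2
  · exact Or.inr (Or.inl h2)
  · exact Or.inl h2
  · exact Or.inr (Or.inr ⟨h2.1.symm, by omega⟩)

theorem Ct.exD (E : Ct K T F q τ o ℓ) {x y : V} (h : T.Adj x y) (hg : ¬ (Gm K T F q τ ℓ).Adj x y)
    (l : ℓ (q y) + 1 = ℓ (q x)) : ∃ t, Th K T F q τ ℓ x y t := by
  obtain ⟨h1, h2⟩ := E.P1 (K := K) (F := F) (τ := τ) h l
  by_cases hp : q y = p0 K T F q τ ℓ (q x)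
  · have : ∃ y', Sp K T F q τ ℓ x y' := by
      by_contra hcon
      push Not at hcon
      exact hg ⟨h, Or.inl (Or.inr ⟨l, hp, hcon⟩)⟩
    obtain ⟨t, ht⟩ := this
    exact ⟨t, tg_sw E.D.tri (E.P3 ht h hp), Or.inl ⟨l, Or.inr ⟨hp, ht⟩⟩⟩
  · obtain ⟨t, t1, t2⟩ := E.lift h (E.L.low _ _ _ (E.adjq h) h1 l h2 hp)
    exact ⟨t, t2, Or.inl ⟨l, Or.inl ⟨hp, t1⟩⟩⟩

theorem Ct.th_ex (E : Ct K T F q τ o ℓ) (x y : V) (h : T.Adj x y) (hg : ¬ (Gm K T F q τ ℓ).Adj x y) :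
    ∃ t, Th K T F q τ ℓ x y t := by
  obtain ⟨l1, l2⟩ := E.lev h
  rcases (by omega : ℓ (q y) + 1 = ℓ (q x) ∨ ℓ (q x) + 1 = ℓ (q y) ∨ ℓ (q x) = ℓ (q y)) with
    l | l | l
  · exact E.exD h hg l
  · obtain ⟨t, ht⟩ := E.exD h.symm (fun h' => hg h'.symm) l
    exact ⟨t, E.th_sym _ _ _ ht⟩
  · obtain ⟨z, z1, z2⟩ := E.L.hor _ _ (E.adjq h) l
    obtain ⟨t, t1, t2⟩ := E.lift h z1
    exact ⟨t, t2, Or.inr (Or.inr ⟨l, by rw [t1]; exact z2⟩)⟩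

theorem Ct.unD (E : Ct K T F q τ o ℓ) {x y t t' : V} (h : T.Adj x y)
    (l : ℓ (q y) + 1 = ℓ (q x)) (h1 : Th K T F q τ ℓ x y t) (h2 : Th K T F q τ ℓ x y t') :
    t = t' := by
  obtain ⟨a1, ⟨-, a2⟩ | ⟨a2, -⟩ | ⟨a2, -⟩⟩ := h1
  · obtain ⟨b1, ⟨-, b2⟩ | ⟨b2, -⟩ | ⟨b2, -⟩⟩ := h2
    · rcases a2 with ⟨a2, a3⟩ | ⟨a2, a3⟩
      · rcases b2 with ⟨b2, b3⟩ | ⟨b2, b3⟩
        · obtain ⟨k, k1, k2⟩ := E.nbr (tg_a2 E.D.tri a1) (tg_a2 E.D.tri b1) (a3.trans b3.symm)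
          rcases E.D.nic.cor k x y t a1 (by rw [k2]; exact b1) k1 with h3 | h3
          · by_cases hk : k = 1
            · rw [← k2, hk, one_smul]
            · have h4 := (E.fxe h hk k1 h3).1
              rw [← k2, E.P2 h l h4 (tg_a2 E.D.tri a1) a3 k k1]
          · rw [← k2, h3]
        · exact absurd b2 a2
      · rcases b2 with ⟨b2, b3⟩ | ⟨b2, b3⟩
        · exact absurd a2 b2
        · exact E.spU a3 b3
    · omega
    · omega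
  · omega
  · omega

theorem Ct.th_un (E : Ct K T F q τ o ℓ) (x y t t' : V) (h : T.Adj x y) (hg : ¬ (Gm K T F q τ ℓ).Adj x y)
    (h1 : Th K T F q τ ℓ x y t) (h2 : Th K T F q τ ℓ x y t') : t = t' := by
  obtain ⟨l1, l2⟩ := E.lev h
  rcases (by omega : ℓ (q y) + 1 = ℓ (q x) ∨ ℓ (q x) + 1 = ℓ (q y) ∨ ℓ (q x) = ℓ (q y)) with
    l | l | l
  · exact E.unD h l h1 h2
  · exact E.unD h.symm l (E.th_sym _ _ _ h1) (E.th_sym _ _ _ h2)
  · obtain ⟨a1, ⟨a2, -⟩ | ⟨a2, -⟩ | ⟨-, a2⟩⟩ := h1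
    · omega
    · omega
    · obtain ⟨b1, ⟨b2, -⟩ | ⟨b2, -⟩ | ⟨-, b2⟩⟩ := h2
      · omega
      · omega
      · obtain ⟨k, k1, k2⟩ := E.nbr (tg_a2 E.D.tri a1) (tg_a2 E.D.tri b1) (E.HU a1 b1 a2 b2)
        rcases E.D.nic.cor k x y t a1 (by rw [k2]; exact b1) k1 with h3 | h3
        · by_cases hk : k • t = t
          · rw [← k2, hk]
          · exfalso
            have hk1 : k ≠ 1 := by
              rintro rfl
              exact hk (one_smul _ _)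
            obtain ⟨f1, f2⟩ := E.fxe h hk1 k1 h3
            rcases z3' _ _ (E.D.tn _ _ h) with ht | ht
            · exact hg ⟨h, Or.inl (Or.inl ⟨h, l, f1, ht, t, a1, a2, fun hf => hk (hf k k1)⟩)⟩
            · exact hg ⟨h, Or.inr (Or.inl ⟨h.symm, l.symm, f2, ht, t,
                tg_sw E.D.tri (tg_rot E.D.tri a1), by omega, fun hf => hk (hf k h3)⟩)⟩
        · rw [← k2, h3]

/-! ### the matching -/

theorem Ct.mA (E : Ct K T F q τ o ℓ) {x u w : V} (h : Tg F x u w) (l : ℓ (q w) + 1 = ℓ (q x))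
    (hu : q u = p0 K T F q τ ℓ (q x)) : ¬ (Gm K T F q τ ℓ).Adj x w ∧ Th K T F q τ ℓ x w u := by
  have hne : q w ≠ p0 K T F q τ ℓ (q x) := by
    rw [← hu]
    intro he
    obtain ⟨k, hk⟩ := (E.D.hq.eq _ _).1 he
    exact E.D.nic.ne k w u (tg_a3 E.D.tri h).symm hk
  refine ⟨?_, tg_sw E.D.tri h, Or.inl ⟨l, Or.inl ⟨hne, hu⟩⟩⟩
  rintro ⟨-, (h1 | h1) | (h1 | h1)⟩
  · have := h1.2.1
    omega
  · exact hne h1.2.1
  · have := h1.2.1
    omega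
  · have := h1.1
    omega

/-- one of two lower neighbours is the preferred one -/
theorem Ct.two (E : Ct K T F q τ o ℓ) {x u w : V} (h : Tg F x u w) (lu : ℓ (q u) + 1 = ℓ (q x))
    (lw : ℓ (q w) + 1 = ℓ (q x)) : q u = p0 K T F q τ ℓ (q x) ∨ q w = p0 K T F q τ ℓ (q x) := by
  by_contra hcon
  push Not at hcon
  obtain ⟨h1, h2⟩ := hcon
  obtain ⟨a1, a2⟩ := E.P1 (K := K) (F := F) (τ := τ) (tg_a1 E.D.tri h) lu
  have t1 := E.L.low _ _ _ (E.adjq (tg_a1 E.D.tri h)) a1 lu a2 h1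
  have t2 := E.L.low _ _ _ (E.adjq (tg_a2 E.D.tri h)) a1 lw a2 h2
  exact E.D.tri'.g3 _ _ _ _ t1 (tg_sw E.D.tri' t2) (tg_sw E.D.tri' (E.tgq h))

/-- some edge of the triangle has this triangle -/
def Mt (K : Type) [Group K] {V W : Type} [MulAction K V] (T : SimpleGraph V) (F : Set (ℤ → V))
    (q : V → W) (τ : V → ZMod 3) (ℓ : W → ℕ) (x y t : V) : Prop :=
  ¬ (Gm K T F q τ ℓ).Adj x y ∧ Th K T F q τ ℓ x y t


theorem Ct.mt_sym (E : Ct K T F q τ o ℓ) {x y t : V} (h : Mt K T F q τ ℓ x y t) : Mt K T F q τ ℓ y x t :=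
  ⟨fun h' => h.1 h'.symm, E.th_sym _ _ _ h.2⟩

theorem Ct.topA (E : Ct K T F q τ o ℓ) {x u w : V} (h : Tg F x u w)
    (lu : ℓ (q u) + 1 = ℓ (q x)) (lw : ℓ (q w) + 1 = ℓ (q x)) :
    Mt K T F q τ ℓ x u w ∨ Mt K T F q τ ℓ u w x ∨ Mt K T F q τ ℓ w x u := by
  rcases E.two (K := K) (F := F) (τ := τ) h lu lw with h1 | h1
  · exact Or.inr (Or.inr (E.mt_sym (E.mA h lw h1)))
  · exact Or.inl (E.mA (tg_sw E.D.tri h) lu h1)

theorem Ct.mB (E : Ct K T F q τ o ℓ) {x y z : V} (h : Tg F x y z)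
    (lz : ℓ (q z) + 1 = ℓ (q x)) (hs : Sp K T F q τ ℓ x y) : Mt K T F q τ ℓ x z y := by
  refine ⟨?_, tg_sw E.D.tri h, Or.inl ⟨lz, Or.inr ⟨E.P3' hs h lz, hs⟩⟩⟩
  rintro ⟨-, (h1 | h1) | (h1 | h1)⟩
  · have := h1.2.1
    omega
  · exact h1.2.2 y hs
  · have := h1.2.1
    omega
  · have := h1.1
    omega

theorem Ct.topB (E : Ct K T F q τ o ℓ) {x y z : V} (h : Tg F x y z)
    (l : ℓ (q x) = ℓ (q y)) (lz : ℓ (q z) + 1 = ℓ (q x)) :
    Mt K T F q τ ℓ x y z ∨ Mt K T F q τ ℓ y z x ∨ Mt K T F q τ ℓ z x y := by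
  by_cases h1 : Sp K T F q τ ℓ x y
  · exact Or.inr (Or.inr (E.mt_sym (E.mB h lz h1)))
  · by_cases h2 : Sp K T F q τ ℓ y x
    · exact Or.inr (Or.inl (E.mB (tg_sw E.D.tri (tg_rot E.D.tri h)) (by omega) h2))
    · refine Or.inl ⟨?_, h, Or.inr (Or.inr ⟨l, lz⟩)⟩
      rintro ⟨-, (h3 | h3) | (h3 | h3)⟩
      · exact h1 h3
      · have := h3.1
        omega
      · exact h2 h3
      · have := h3.1
        omega

theorem Ct.all (E : Ct K T F q τ o ℓ) {x y z : V} (h : Tg F x y z) :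
    Mt K T F q τ ℓ x y z ∨ Mt K T F q τ ℓ y z x ∨ Mt K T F q τ ℓ z x y := by
  have h1 := tg_rot E.D.tri h
  have h2 := tg_rot E.D.tri h1
  obtain ⟨a1, a2⟩ := E.lev (tg_a1 E.D.tri h)
  obtain ⟨b1, b2⟩ := E.lev (tg_a1 E.D.tri h1)
  obtain ⟨c1, c2⟩ := E.lev (tg_a1 E.D.tri h2)
  have h0 : ¬ (ℓ (q x) = ℓ (q y) ∧ ℓ (q x) = ℓ (q z)) := fun e => E.noh h e.1 e.2
  rcases (by omega : (ℓ (q y) + 1 = ℓ (q x) ∧ ℓ (q z) + 1 = ℓ (q x)) ∨
    (ℓ (q z) + 1 = ℓ (q y) ∧ ℓ (q x) + 1 = ℓ (q y)) ∨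
    (ℓ (q x) + 1 = ℓ (q z) ∧ ℓ (q y) + 1 = ℓ (q z)) ∨
    (ℓ (q x) = ℓ (q y) ∧ ℓ (q z) + 1 = ℓ (q x)) ∨
    (ℓ (q y) = ℓ (q z) ∧ ℓ (q x) + 1 = ℓ (q y)) ∨
    (ℓ (q z) = ℓ (q x) ∧ ℓ (q y) + 1 = ℓ (q z))) with ⟨e, f⟩ | ⟨e, f⟩ | ⟨e, f⟩ | ⟨e, f⟩ |
      ⟨e, f⟩ | ⟨e, f⟩
  · exact E.topA h e f
  · rcases E.topA h1 e f with g | g | g
    · exact Or.inr (Or.inl g)
    · exact Or.inr (Or.inr g)
    · exact Or.inl g
  · rcases E.topA h2 e f with g | g | g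
    · exact Or.inr (Or.inr g)
    · exact Or.inl g
    · exact Or.inr (Or.inl g)
  · exact E.topB h e f
  · rcases E.topB h1 e f with g | g | g
    · exact Or.inr (Or.inl g)
    · exact Or.inr (Or.inr g)
    · exact Or.inl g
  · rcases E.topB h2 e f with g | g | g
    · exact Or.inr (Or.inr g)
    · exact Or.inl g
    · exact Or.inr (Or.inl g)

/-! ### the rank -/

/-- chains of special edges -/
def Ch (K : Type) [Group K] {V W : Type} [MulAction K V] (T : SimpleGraph V) (F : Set (ℤ → V))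
    (q : V → W) (τ : V → ZMod 3) (ℓ : W → ℕ) (x : V) (m : ℕ) : Prop :=
  ∃ a : ℕ → V, a 0 = x ∧ ∀ i, i < m → Sp K T F q τ ℓ (a i) (a (i + 1))

theorem zz : ∀ a : ZMod 3, a + 1 + 1 ≠ a := by decide

theorem Ct.ch_le (E : Ct K T F q τ o ℓ) {x : V} {m : ℕ} (h : Ch K T F q τ ℓ x m) :
    m ≤ ℓ (q x) := by
  classical
  obtain ⟨a, h0, h1⟩ := h
  have hlev : ∀ i, i ≤ m → ℓ (q (a i)) = ℓ (q x) := by
    intro i
    induction i with
    | zero => intro _; rw [h0]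
    | succ i ih =>
      intro hi
      rw [← (h1 i (by omega)).2.1]
      exact ih (by omega)
  have hz : ∀ i, i < m → ∃ z, Tg F (a i) (a (i + 1)) z ∧ ℓ (q z) + 1 = ℓ (q (a i)) ∧
      ¬ Fx K (a i) z := fun i hi => (h1 i hi).2.2.2.2
  haveI : Nonempty V := ⟨x⟩
  choose! z hz using hz
  refine chain_le E.D.tri' E.L (ℓ (q x)) m (fun i => q (a i)) (fun i => q (z i)) ?_ ?_
  · intro i hi
    obtain ⟨t1, t2, -⟩ := hz i hi
    refine ⟨hlev i (by omega), hlev (i + 1) (by omega), E.tgq t1, ?_⟩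
    rw [← hlev i (by omega)]
    exact t2
  · intro i hi he
    obtain ⟨t1, t2, t3⟩ := hz i (by omega)
    obtain ⟨s1, s2, s3⟩ := hz (i + 1) hi
    obtain ⟨p1, p2, p3, p4, -⟩ := h1 i (by omega)
    obtain ⟨r1, r2, r3, r4, -⟩ := h1 (i + 1) hi
    have f1 : Fx K (a (i + 1)) (a i) := E.spr p1 p3 t3
    have t4 : Tg F (a (i + 1)) (a i) (z i) := tg_sw E.D.tri (tg_rot E.D.tri t1)
    obtain ⟨k, k1, k2⟩ := E.nbr (tg_a2 E.D.tri t4) (tg_a2 E.D.tri s1) he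
    have t5 := E.tgk k t4
    rw [k1, k2, f1 k k1] at t5
    refine s3 (E.G1 f1 r3 ?_ t5 (tg_sw E.D.tri s1))
    intro he'
    rw [← he'] at r4
    rw [p4] at r4
    exact zz _ r4.symm

open Classical in
/-- the length of the chain of special edges -/
noncomputable def sr (K : Type) [Group K] {V W : Type} [MulAction K V] (T : SimpleGraph V)
    (F : Set (ℤ → V)) (q : V → W) (τ : V → ZMod 3) (ℓ : W → ℕ) (x : V) : ℕ :=
  Nat.findGreatest (fun m => Ch K T F q τ ℓ x m) (ℓ (q x))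


theorem sr_le (x : V) : sr K T F q τ ℓ x ≤ ℓ (q x) := by
  classical
  exact Nat.findGreatest_le _

theorem Ct.sr_lt (E : Ct K T F q τ o ℓ) {x y : V} (h : Sp K T F q τ ℓ x y) : sr K T F q τ ℓ y < sr K T F q τ ℓ x := by
  classical
  have h1 : Ch K T F q τ ℓ y (sr K T F q τ ℓ y) := by
    have := Nat.findGreatest_spec (P := fun m => Ch K T F q τ ℓ y m) (m := 0) (n := ℓ (q y))
      (Nat.zero_le _) ⟨fun _ => y, rfl, fun i hi => absurd hi (Nat.not_lt_zero _)⟩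
    exact this
  have h2 : Ch K T F q τ ℓ x (sr K T F q τ ℓ y + 1) := by
    obtain ⟨a, a0, a1⟩ := h1
    refine ⟨fun i => if i = 0 then x else a (i - 1), if_pos rfl, ?_⟩
    intro i hi
    by_cases hi0 : i = 0
    · subst hi0
      simpa [a0] using h
    · obtain ⟨j, rfl⟩ : ∃ j, i = j + 1 := ⟨i - 1, by omega⟩
      simpa using a1 j (by omega)
  exact Nat.le_findGreatest (E.ch_le h2) h2

open Classical in
/-- the rank of a pair, the first vertex is the upper one -/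
noncomputable def rf (K : Type) [Group K] {V W : Type} [MulAction K V] (T : SimpleGraph V)
    (F : Set (ℤ → V)) (q : V → W) (τ : V → ZMod 3) (ℓ : W → ℕ) (x y : V) : ℕ :=
  2 * (ℓ (q x) * (ℓ (q x) + 1)) + 2 * sr K T F q τ ℓ x +
    (if q y = p0 K T F q τ ℓ (q x) then 0 else 1)

open Classical in
/-- the rank -/
noncomputable def rk (K : Type) [Group K] {V W : Type} [MulAction K V] (T : SimpleGraph V)
    (F : Set (ℤ → V)) (q : V → W) (τ : V → ZMod 3) (ℓ : W → ℕ) (x y : V) : ℕ :=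
  if (Gm K T F q τ ℓ).Adj x y then 0 else
    1 + (if ℓ (q y) < ℓ (q x) then rf K T F q τ ℓ x y else
      if ℓ (q x) < ℓ (q y) then rf K T F q τ ℓ y x else
        2 * (ℓ (q x) * (ℓ (q x) + 1)) + 2 * ℓ (q x) + 2)

theorem rk_g {x y : V} (h : (Gm K T F q τ ℓ).Adj x y) : rk K T F q τ ℓ x y = 0 := by
  unfold rk
  rw [if_pos h]

theorem rk_d {x y : V} (h : ¬ (Gm K T F q τ ℓ).Adj x y) (l : ℓ (q y) < ℓ (q x)) :
    rk K T F q τ ℓ x y = 1 + rf K T F q τ ℓ x y := by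
  unfold rk
  rw [if_neg h, if_pos l]

theorem rk_u {x y : V} (h : ¬ (Gm K T F q τ ℓ).Adj x y) (l : ℓ (q x) < ℓ (q y)) :
    rk K T F q τ ℓ x y = 1 + rf K T F q τ ℓ y x := by
  unfold rk
  rw [if_neg h, if_neg (by omega), if_pos l]

theorem rk_h {x y : V} (h : ¬ (Gm K T F q τ ℓ).Adj x y) (l : ℓ (q x) = ℓ (q y)) :
    rk K T F q τ ℓ x y = 1 + (2 * (ℓ (q x) * (ℓ (q x) + 1)) + 2 * ℓ (q x) + 2) := by
  unfold rk
  rw [if_neg h, if_neg (by omega), if_neg (by omega)]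

theorem rk_sym (x y : V) : rk K T F q τ ℓ x y = rk K T F q τ ℓ y x := by
  by_cases h : (Gm K T F q τ ℓ).Adj x y
  · rw [rk_g h, rk_g h.symm]
  · have h' : ¬ (Gm K T F q τ ℓ).Adj y x := fun e => h e.symm
    rcases lt_trichotomy (ℓ (q x)) (ℓ (q y)) with l | l | l
    · rw [rk_u h l, rk_d h' l]
    · rw [rk_h h l, rk_h h' l.symm, l]
    · rw [rk_d h l, rk_u h' l]

theorem rf_le (x y : V) : rf K T F q τ ℓ x y ≤
    2 * (ℓ (q x) * (ℓ (q x) + 1)) + 2 * sr K T F q τ ℓ x + 1 := by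
  unfold rf
  split_ifs <;> omega

theorem rk_dle {x y : V} (l : ℓ (q y) < ℓ (q x)) : rk K T F q τ ℓ x y ≤
    2 * (ℓ (q x) * (ℓ (q x) + 1)) + 2 * sr K T F q τ ℓ x + 2 := by
  by_cases h : (Gm K T F q τ ℓ).Adj x y
  · rw [rk_g h]
    omega
  · rw [rk_d h l]
    have := rf_le (K := K) (T := T) (F := F) (q := q) (τ := τ) (ℓ := ℓ) x y
    omega

theorem Ct.rkD (E : Ct K T F q τ o ℓ) {x y t : V} (hg : ¬ (Gm K T F q τ ℓ).Adj x y)
    (l : ℓ (q y) + 1 = ℓ (q x)) (h : Th K T F q τ ℓ x y t) :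
    rk K T F q τ ℓ x t < rk K T F q τ ℓ x y ∧ rk K T F q τ ℓ t y < rk K T F q τ ℓ x y := by
  rw [rk_d hg (by omega : ℓ (q y) < ℓ (q x))]
  obtain ⟨a1, ⟨-, a2⟩ | ⟨a2, -⟩ | ⟨a2, -⟩⟩ := h
  · rcases a2 with ⟨a2, a3⟩ | ⟨a2, a3⟩
    · obtain ⟨h1, h2⟩ := E.P1 (K := K) (F := F) (τ := τ) (tg_a1 E.D.tri a1) l
      have lt : ℓ (q t) + 1 = ℓ (q x) := by rw [a3]; exact h2
      have e1 : rf K T F q τ ℓ x y = 2 * (ℓ (q x) * (ℓ (q x) + 1)) + 2 * sr K T F q τ ℓ x + 1 := by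
        unfold rf
        rw [if_neg a2]
      constructor
      · by_cases hg' : (Gm K T F q τ ℓ).Adj x t
        · rw [rk_g hg']
          omega
        · rw [rk_d hg' (by omega)]
          have e2 : rf K T F q τ ℓ x t = 2 * (ℓ (q x) * (ℓ (q x) + 1)) + 2 * sr K T F q τ ℓ x + 0 := by
            unfold rf
            rw [if_pos a3]
          omega
      · by_cases hg' : (Gm K T F q τ ℓ).Adj t y
        · rw [rk_g hg']
          omega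
        · rw [rk_h hg' (by omega), e1, ← lt]
          nlinarith
    · have lt : ℓ (q x) = ℓ (q t) := a3.2.1
      have e1 : rf K T F q τ ℓ x y = 2 * (ℓ (q x) * (ℓ (q x) + 1)) + 2 * sr K T F q τ ℓ x + 0 := by
        unfold rf
        rw [if_pos a2]
      constructor
      · have hg' : (Gm K T F q τ ℓ).Adj x t := ⟨a3.1, Or.inl (Or.inl a3)⟩
        rw [rk_g hg']
        omega
      · have h1 := rk_dle (K := K) (T := T) (F := F) (q := q) (τ := τ) (ℓ := ℓ) (x := t) (y := y)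
          (by omega)
        have h2 := E.sr_lt a3
        rw [e1, lt]
        omega
  · omega
  · omega

theorem Ct.rkA (E : Ct K T F q τ o ℓ) (x y t : V) (h : T.Adj x y) (hg : ¬ (Gm K T F q τ ℓ).Adj x y)
    (ht : Th K T F q τ ℓ x y t) :
    rk K T F q τ ℓ x t < rk K T F q τ ℓ x y ∧ rk K T F q τ ℓ t y < rk K T F q τ ℓ x y := by
  obtain ⟨l1, l2⟩ := E.lev h
  rcases (by omega : ℓ (q y) + 1 = ℓ (q x) ∨ ℓ (q x) + 1 = ℓ (q y) ∨ ℓ (q x) = ℓ (q y)) with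
    l | l | l
  · exact E.rkD hg l ht
  · obtain ⟨h1, h2⟩ := E.rkD (fun h' => hg h'.symm) l (E.th_sym _ _ _ ht)
    rw [rk_sym x t, rk_sym x y, rk_sym t y]
    exact ⟨h2, h1⟩
  · obtain ⟨a1, ⟨a2, -⟩ | ⟨a2, -⟩ | ⟨-, a2⟩⟩ := ht
    · omega
    · omega
    · rw [rk_h hg l]
      have h1 := rk_dle (K := K) (T := T) (F := F) (q := q) (τ := τ) (ℓ := ℓ) (x := x) (y := t)
        (by omega)
      have h2 := rk_dle (K := K) (T := T) (F := F) (q := q) (τ := τ) (ℓ := ℓ) (x := y) (y := t)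
        (by omega)
      have h3 := sr_le (K := K) (T := T) (F := F) (q := q) (τ := τ) (ℓ := ℓ) x
      have h4 := sr_le (K := K) (T := T) (F := F) (q := q) (τ := τ) (ℓ := ℓ) y
      rw [rk_sym t y]
      rw [← l] at h2 h4
      constructor <;> omega

/-- **the tree** -/
theorem Ct.tree (E : Ct K T F q τ o ℓ) : (Gm K T F q τ ℓ).IsTree :=
  tree_of_third (T := T) (F := F) E.D.tri.per E.D.sc (fun _ _ h => h.1) (Th K T F q τ ℓ)
    (rk K T F q τ ℓ) E.th_sym E.th_ex E.th_un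
    (fun _ _ _ _ _ ht => ⟨tg_a2 E.D.tri ht.1, (tg_a3 E.D.tri ht.1).symm⟩) E.rkA
    (fun _ _ _ h => ⟨⟨tg_a1 E.D.tri h, tg_a3 E.D.tri h, (tg_a2 E.D.tri h).symm⟩, E.all h⟩)

theorem Ct.ghk (E : Ct K T F q τ o ℓ) (k : K) {x y : V} (h : Gh K T F q τ ℓ x y) :
    Gh K T F q τ ℓ (k • x) (k • y) := by
  rcases h with h | ⟨h1, h2, h3⟩
  · exact Or.inl (E.spk k h)
  · refine Or.inr ⟨by rw [E.qk, E.qk, h1], by rw [E.qk, E.qk, h2], fun y' h => ?_⟩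
    have := E.spk k⁻¹ h
    rw [inv_smul_smul] at this
    exact h3 _ this

end

/-- **TREE** -/
theorem t_TREE (hP : S_PATH) : S_TREE := by
  intro K V W _ _ T F q τ D
  obtain ⟨x0⟩ := D.sc'.1.nonempty
  obtain ⟨ℓ, hℓ⟩ := hP W (QT T q) (QF F q) D.tri' D.sc' x0
  have E : Ct K T F q τ x0 ℓ := ⟨D, hℓ⟩
  refine ⟨Gm K T F q τ ℓ, E.tree, fun _ _ h => h.1, ?_⟩
  intro k u v h
  refine ⟨D.ac.adj k _ _ h.1, ?_⟩
  rcases h.2 with h2 | h2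
  · exact Or.inl (E.ghk k h2)
  · exact Or.inr (E.ghk k h2)

end Run7.h993.T3
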